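import Pool.Agent.W795.FloqDefs

/-! Two by two linear algebra and the analytic branch of the multiplier. -/

set_option autoImplicit false

namespace Pool.Agent.W795.Floq

open Filter Topology Matrix

lemma ch_two (A : Matrix (Fin 2) (Fin 2) ℂ) (hdet : A.det = 1) (a : Fin 2 → ℂ) :
    A *ᵥ (A *ᵥ a) = A.trace • (A *ᵥ a) - a := by
  rw [det_fin_two] at hdet
  ext i
  fin_cases i
  · simp [Matrix.mulVec, dotProduct, Fin.sum_univ_two, Matrix.trace]
    linear_combination (-a 0) * hdet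
  · simp [Matrix.mulVec, dotProduct, Fin.sum_univ_two, Matrix.trace]
    linear_combination (-a 1) * hdet

lemma eig_root {A : Matrix (Fin 2) (Fin 2) ℂ} (hdet : A.det = 1) {a : Fin 2 → ℂ} {r : ℂ}
    (h : A *ᵥ a = r • a) (ha : a ≠ 0) : r ^ 2 - A.trace * r + 1 = 0 := by
  have h1 := ch_two A hdet a
  rw [h, Matrix.mulVec_smul, h] at h1
  have h2 : (r ^ 2 - A.trace * r + 1) • a = 0 := by
    have : (r ^ 2 - A.trace * r + 1) • a = r • r • a - (A.trace • r • a - a) := by module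
    rw [this, h1, sub_self]
  exact (smul_eq_zero.1 h2).resolve_right ha

lemma eig_vec {A : Matrix (Fin 2) (Fin 2) ℂ} (hdet : A.det = 1) {r : ℂ}
    (hr : r ^ 2 - A.trace * r + 1 = 0) (hr0 : r ≠ 0) (e : Fin 2 → ℂ) :
    A *ᵥ (A *ᵥ e - r⁻¹ • e) = r • (A *ᵥ e - r⁻¹ • e) := by
  rw [Matrix.mulVec_sub, Matrix.mulVec_smul, ch_two A hdet e]
  have ht : A.trace = r + r⁻¹ := by
    field_simp
    linear_combination -hr
  rw [ht]
  have h1 : r * r⁻¹ = 1 := mul_inv_cancel₀ hr0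
  have : (r + r⁻¹) • (A *ᵥ e) - e - r⁻¹ • (A *ᵥ e) = r • (A *ᵥ e) - (1:ℂ) • e := by module
  rw [this, ← h1]
  module

lemma eig_line {A : Matrix (Fin 2) (Fin 2) ℂ} (hdet : A.det = 1) {r : ℂ}
    (hr : r ^ 2 - A.trace * r + 1 = 0) (hr0 : r ≠ 0) (hr1 : r ^ 2 ≠ 1) {e : Fin 2 → ℂ}
    (he : A *ᵥ e - r⁻¹ • e ≠ 0) {a : Fin 2 → ℂ} (ha : A *ᵥ a = r • a) :
    ∃ c : ℂ, a = c • (A *ᵥ e - r⁻¹ • e) := by
  have ht : A.trace = r + r⁻¹ := by
    field_simp
    linear_combination -hr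
  set v := A *ᵥ e - r⁻¹ • e with hv
  -- the 2x2 determinant of (v, a) vanishes
  have hrr : r * r⁻¹ = 1 := mul_inv_cancel₀ hr0
  have hne : r - r⁻¹ ≠ 0 := by
    intro h
    apply hr1
    have : r * (r - r⁻¹) = 0 := by rw [h, mul_zero]
    linear_combination this + hrr
  have hdetC : (A 0 0 - r⁻¹) * (A 1 1 - r⁻¹) - A 0 1 * A 1 0 = 0 := by
    rw [det_fin_two] at hdet
    have ht' : A 0 0 + A 1 1 = r + r⁻¹ := by rw [← ht, trace_fin_two]
    linear_combination hdet - r⁻¹ * ht' + (-1 : ℂ) * hrr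
  have hv0 : v 0 = (A 0 0 - r⁻¹) * e 0 + A 0 1 * e 1 := by
    rw [hv]; simp [Matrix.mulVec, dotProduct, Fin.sum_univ_two]; ring
  have hv1 : v 1 = A 1 0 * e 0 + (A 1 1 - r⁻¹) * e 1 := by
    rw [hv]; simp [Matrix.mulVec, dotProduct, Fin.sum_univ_two]; ring
  have ha0 : (r - r⁻¹) * a 0 = (A 0 0 - r⁻¹) * a 0 + A 0 1 * a 1 := by
    have := congrFun ha 0
    simp [Matrix.mulVec, dotProduct, Fin.sum_univ_two] at this
    linear_combination -this
  have ha1 : (r - r⁻¹) * a 1 = A 1 0 * a 0 + (A 1 1 - r⁻¹) * a 1 := by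
    have := congrFun ha 1
    simp [Matrix.mulVec, dotProduct, Fin.sum_univ_two] at this
    linear_combination -this
  have hpar : v 0 * a 1 = v 1 * a 0 := by
    have : (r - r⁻¹) * (v 0 * a 1 - v 1 * a 0) = 0 := by
      have e1 : (r - r⁻¹) * (v 0 * a 1 - v 1 * a 0)
          = v 0 * ((r - r⁻¹) * a 1) - v 1 * ((r - r⁻¹) * a 0) := by ring
      rw [e1, ha0, ha1, hv0, hv1]
      linear_combination (e 0 * a 1 - e 1 * a 0) * hdetC
    have := (mul_eq_zero.1 this).resolve_left hne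
    linear_combination this
  by_cases h0 : v 0 = 0
  · have h1 : v 1 ≠ 0 := by
      intro h1
      apply he
      ext i
      fin_cases i
      · exact h0
      · exact h1
    refine ⟨a 1 / v 1, ?_⟩
    ext i
    fin_cases i
    · have : a 0 = 0 := by
        rw [h0, zero_mul] at hpar
        exact (mul_eq_zero.1 hpar.symm).resolve_left h1
      simp [h0, this]
    · simp [h1]
  · refine ⟨a 0 / v 0, ?_⟩
    ext i
    fin_cases i
    · simp [h0]
    · simp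
      field_simp
      linear_combination hpar

lemma exists_e {A : Matrix (Fin 2) (Fin 2) ℂ} {r : ℂ} (ht : A.trace = r + r⁻¹) (hr0 : r ≠ 0)
    (hr1 : r ^ 2 ≠ 1) : ∃ e : Fin 2 → ℂ, A *ᵥ e - r⁻¹ • e ≠ 0 := by
  by_contra hcon
  push Not at hcon
  have h0 := congrFun (hcon ![1, 0]) 0
  have h1 := congrFun (hcon ![0, 1]) 1
  simp [Matrix.mulVec, dotProduct, Fin.sum_univ_two] at h0 h1
  rw [trace_fin_two] at ht
  apply hr1
  have : r = r⁻¹ := by linear_combination h0 + h1 - ht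
  have h2 : r * r = 1 := by
    nth_rewrite 2 [this]
    exact mul_inv_cancel₀ hr0
  rw [pow_two]; exact h2

/-- The analytic branch of the multiplier. -/
lemma exists_branch {Δ : ℂ → ℂ} (hΔ : AnalyticAt ℂ Δ 0) (h4 : Δ 0 ^ 2 ≠ 4) :
    ∃ ρ : ℂ → ℂ, AnalyticAt ℂ ρ 0 ∧ (∀ᶠ t in 𝓝 (0:ℂ), ρ t ^ 2 - Δ t * ρ t + 1 = 0) := by
  set D : ℂ → ℂ := fun t => Δ t ^ 2 - 4 with hD
  have hD0 : D 0 ≠ 0 := by
    rw [hD]; simp only; intro h; exact h4 (by linear_combination h)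
  obtain ⟨c, hc⟩ : ∃ c : ℂ, c ^ 2 = D 0 := IsAlgClosed.exists_pow_nat_eq (D 0) (by norm_num)
  have hDan : AnalyticAt ℂ D 0 := (hΔ.pow 2).sub analyticAt_const
  set w : ℂ → ℂ := fun t => c * Complex.exp ((1 / 2) * Complex.log (D t / D 0)) with hw
  have h1 : D 0 / D 0 ∈ Complex.slitPlane := by
    rw [div_self hD0]; exact Complex.one_mem_slitPlane
  have hwan : AnalyticAt ℂ w 0 := by
    have e1 : AnalyticAt ℂ (fun t => D t / D 0) 0 := hDan.div_const
    have e2 : AnalyticAt ℂ (fun t => Complex.log (D t / D 0)) 0 := e1.clog h1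
    exact analyticAt_const.mul (analyticAt_const.mul e2).cexp
  refine ⟨fun t => (Δ t + w t) / 2, (hΔ.add hwan).div_const, ?_⟩
  have hev : ∀ᶠ t in 𝓝 (0:ℂ), D t ≠ 0 := hDan.continuousAt.eventually_ne hD0
  filter_upwards [hev] with t ht
  have hq : D t / D 0 ≠ 0 := div_ne_zero ht hD0
  have hw2 : w t ^ 2 = D t := by
    rw [hw]
    simp only
    rw [mul_pow, hc, ← Complex.exp_nat_mul]
    have : ((2:ℕ):ℂ) * ((1 / 2) * Complex.log (D t / D 0)) = Complex.log (D t / D 0) := by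
      push_cast; ring
    rw [this, Complex.exp_log hq]
    field_simp
  have : D t = Δ t ^ 2 - 4 := rfl
  rw [this] at hw2
  linear_combination (1 / 4) * hw2

lemma branch_deriv {Δ ρ : ℂ → ℂ} (hΔ : AnalyticAt ℂ Δ 0) (h4 : Δ 0 ^ 2 ≠ 4)
    (hρ : AnalyticAt ℂ ρ 0) (hev : ∀ᶠ t in 𝓝 (0:ℂ), ρ t ^ 2 - Δ t * ρ t + 1 = 0)
    (hd : deriv Δ 0 = 0) : deriv ρ 0 = 0 := by
  have h1 : HasDerivAt Δ 0 0 := by
    have := hΔ.differentiableAt.hasDerivAt
    rwa [hd] at this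
  have h2 : HasDerivAt ρ (deriv ρ 0) 0 := hρ.differentiableAt.hasDerivAt
  have h3 : HasDerivAt (fun t => ρ t ^ 2 - Δ t * ρ t + 1)
      (2 * ρ 0 * deriv ρ 0 - (0 * ρ 0 + Δ 0 * deriv ρ 0)) 0 := by
    have := ((h2.pow 2).sub (h1.mul h2)).add_const (1:ℂ)
    simpa using this
  have h4' : HasDerivAt (fun t => ρ t ^ 2 - Δ t * ρ t + 1) 0 0 :=
    (hasDerivAt_const (0:ℂ) (0:ℂ)).congr_of_eventuallyEq hev
  have h5 := h3.unique h4'
  have h6 : (2 * ρ 0 - Δ 0) * deriv ρ 0 = 0 := by linear_combination h5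
  refine (mul_eq_zero.1 h6).resolve_left ?_
  intro h7
  apply h4
  have h8 := hev.self_of_nhds
  linear_combination (2 * ρ 0 - Δ 0) * h7 - 4 * h8

end Pool.Agent.W795.Floq
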