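import Mathlib

/-! Definitions for the Floquet matrix of a periodic operator of order `n` and for pathologies of
the first kind. -/

set_option autoImplicit false

namespace Pool.Agent.W795.Floq

open Filter Topology

/-- `u` is a classical solution on the whole line of
`u^(n) + ∑_{k=0}^{n-2} p_k(x) u^(k) = l u`. -/
def IsSolution (n : ℕ) (p : ℕ → ℝ → ℂ) (l : ℂ) (u : ℝ → ℂ) : Prop :=
  ContDiff ℝ n u ∧
    ∀ x, iteratedDeriv n u x + ∑ k ∈ Finset.range (n - 1), p k x * iteratedDeriv k u x = l * u x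

/-- `u l 0, …, u l (n-1)` are the fundamental solutions for the spectral parameter `l`: the
`k`-th derivative of the `j`-th one at `0` is `1` for `k = j` and `0` otherwise (`0 ≤ j, k < n`). -/
def IsFundamentalSystem (n : ℕ) (p : ℕ → ℝ → ℂ) (u : ℂ → Fin n → ℝ → ℂ) : Prop :=
  ∀ l j, IsSolution n p l (u l j) ∧
    ∀ k : Fin n, iteratedDeriv k (u l j) 0 = if k = j then 1 else 0

/-- `T l` is, for every `l`, the matrix of the translation `u(x) ↦ u(x + b)` in the basis of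
fundamental solutions. -/
def IsFloquetMatrix (n : ℕ) (b : ℝ) (p : ℕ → ℝ → ℂ) (T : ℂ → Matrix (Fin n) (Fin n) ℂ) : Prop :=
  ∃ u : ℂ → Fin n → ℝ → ℂ, IsFundamentalSystem n p u ∧
    ∀ l j x, u l j (x + b) = ∑ k, T l k j * u l k x

/-- The eigenspace of a matrix for `r`. -/
noncomputable def eigSpace {n : ℕ} (N : Matrix (Fin n) (Fin n) ℂ) (r : ℂ) :
    Submodule ℂ (Fin n → ℂ) :=
  LinearMap.ker (Matrix.toLin' (N - r • (1 : Matrix (Fin n) (Fin n) ℂ)))

/-- A ramification point of degree `d` over `l0` of the Riemann surface of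
`det (r I - N l) = 0`, given by its Puiseux germ: `ρ` is analytic at `0`, `ρ t` is an eigenvalue
of `N (l0 + t ^ d)`, and for `t ≠ 0` near `0` the `d` values `ρ s`, `s ^ d = t ^ d` (they are
permuted cyclically when `l0 + t ^ d` goes around `l0`), are pairwise different. -/
structure IsRamification {n : ℕ} (N : ℂ → Matrix (Fin n) (Fin n) ℂ) (l0 : ℂ) (d : ℕ)
    (ρ : ℂ → ℂ) : Prop where
  analytic : AnalyticAt ℂ ρ 0
  root : ∀ᶠ t in 𝓝 (0 : ℂ), (N (l0 + t ^ d)).charpoly.IsRoot (ρ t)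
  distinct : ∀ᶠ t in 𝓝[≠] (0 : ℂ), ∀ s, s ^ d = t ^ d → s ≠ t → ρ s ≠ ρ t

/-- The span of the eigenvectors of `N l` for the `d` multipliers `ρ t`, `l0 + t ^ d = l`, that
meet at the ramification point. -/
noncomputable def sheetSpan {n : ℕ} (N : ℂ → Matrix (Fin n) (Fin n) ℂ) (l0 : ℂ) (d : ℕ)
    (ρ : ℂ → ℂ) (l : ℂ) : Submodule ℂ (Fin n → ℂ) :=
  ⨆ (t : ℂ) (_ : l0 + t ^ d = l), eigSpace (N l) (ρ t)

/-- Convergence of subspaces: there are bases of `V l` that converge to a basis of `E`. -/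
def SubspaceTendsto {n : ℕ} (V : ℂ → Submodule ℂ (Fin n → ℂ)) (F : Filter ℂ)
    (E : Submodule ℂ (Fin n → ℂ)) : Prop :=
  ∃ (m : ℕ) (w : ℂ → Fin m → (Fin n → ℂ)) (w0 : Fin m → (Fin n → ℂ)),
    LinearIndependent ℂ w0 ∧ Submodule.span ℂ (Set.range w0) = E ∧
    (∀ᶠ l in F, LinearIndependent ℂ (w l) ∧ Submodule.span ℂ (Set.range (w l)) = V l) ∧
    ∀ i, Tendsto (fun l => w l i) F (𝓝 (w0 i))

/-- `N` has a pathology of the first kind over `l0`. -/
def HasFirstKindPathology {n : ℕ} (N : ℂ → Matrix (Fin n) (Fin n) ℂ) (l0 : ℂ) : Prop :=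
  (∀ᶠ l in 𝓝[≠] l0, (N l).charpoly.roots.Nodup) ∧
  ∃ (d : ℕ) (ρ : ℂ → ℂ), 1 < d ∧ IsRamification N l0 d ρ ∧
    SubspaceTendsto (sheetSpan N l0 d ρ) (𝓝[≠] l0) (eigSpace (N l0) (ρ 0)) ∧
    1 < Module.finrank ℂ (eigSpace (N l0) (ρ 0))

end Pool.Agent.W795.Floq
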