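import Pool.Agent.W795.FloqHill

/-! The discriminant of Hill's equation with a real potential: critical points in gaps and
absence of symmetry. -/

set_option autoImplicit false

namespace Pool.Agent.W795.Floq

open Filter Topology Matrix

section Disc

variable {q : ℝ → ℝ} {W : Fin 2 → ℂ → ℝ → (Fin 2 → ℂ)}

/-- the complex fundamental solutions are real for real parameters -/
lemma real_pair (hq : Continuous q) (hW0 : ∀ j l, W j l 0 = Pi.single j 1)
    (hW : ∀ j l, IsSys (comp2 fun x => (q x : ℂ)) spec2 l (W j l)) (μ : ℝ) :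
    ∃ c c' s s' : ℝ → ℝ, RSol (fun x => μ - q x) c c' ∧ RSol (fun x => μ - q x) s s' ∧
      c 0 = 1 ∧ c' 0 = 0 ∧ s 0 = 0 ∧ s' 0 = 1 ∧
      ∀ x, W 0 μ x 0 + W 1 μ x 1 = ((c x + s' x : ℝ) : ℂ) := by
  have hg : Continuous fun x => μ - q x := continuous_const.sub hq
  obtain ⟨c, c', hc, c0, c0'⟩ := exists_rsol hg 1 0
  obtain ⟨s, s', hs, s0, s0'⟩ := exists_rsol hg 0 1
  have hQc : Continuous fun x => (q x : ℂ) := Complex.continuous_ofReal.comp hq
  have key : ∀ (f f' : ℝ → ℝ), RSol (fun x => μ - q x) f f' →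
      IsSys (comp2 fun x => (q x : ℂ)) spec2 (μ:ℂ) (fun x => ![(f x : ℂ), (f' x : ℂ)]) := by
    intro f f' hf
    rw [sys2_iff]
    intro x
    refine ⟨?_, ?_⟩
    · simpa using (hf x).1.ofReal_comp
    · have := (hf x).2.ofReal_comp
      simpa using this
  have k1 : (fun x => ![(c x : ℂ), (c' x : ℂ)]) = W 0 μ := by
    apply sys_unique (comp2_cont hQc) (key c c' hc) (hW 0 μ)
    rw [hW0]
    ext i
    fin_cases i <;> simp [c0, c0']
  have k2 : (fun x => ![(s x : ℂ), (s' x : ℂ)]) = W 1 μ := by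
    apply sys_unique (comp2_cont hQc) (key s s' hs) (hW 1 μ)
    rw [hW0]
    ext i
    fin_cases i <;> simp [s0, s0']
  refine ⟨c, c', s, s', hc, hs, c0, c0', s0, s0', ?_⟩
  intro x
  rw [← k1, ← k2]
  simp

lemma exp_small (K b : ℝ) : ∃ N : ℝ, 0 < N ∧ ∀ ν, N ≤ ν → 2 * (Real.exp (K * b / ν) - 1) ≤ 1 := by
  have h1 : Tendsto (fun ν : ℝ => 2 * (Real.exp (K * b / ν) - 1)) atTop (𝓝 (2 * (Real.exp 0 - 1))) := by
    have h2 : Tendsto (fun ν : ℝ => K * b / ν) atTop (𝓝 0) :=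
      tendsto_const_nhds.div_atTop tendsto_id
    exact (((Real.continuous_exp.tendsto 0).comp h2).sub_const 1).const_mul 2
  rw [Real.exp_zero, sub_self, mul_zero] at h1
  have h3 := h1.eventually (ge_mem_nhds (show (0:ℝ) < 1 by norm_num))
  obtain ⟨N, hN⟩ := eventually_atTop.1 h3
  exact ⟨max N 1, by positivity, fun ν hν => hN ν ((le_max_left _ _).trans hν)⟩

/-- summary of the real axis -/
lemma disc_facts (hq : Continuous q) {K : ℝ} (hK : 0 < K) (hqK : ∀ x, |q x| ≤ K)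
    (hW0 : ∀ j l, W j l 0 = Pi.single j 1)
    (hW : ∀ j l, IsSys (comp2 fun x => (q x : ℂ)) spec2 l (W j l)) {b : ℝ} (hb : 0 ≤ b) :
    (∀ μ : ℝ, (W 0 μ b 0 + W 1 μ b 1).im = 0) ∧
    (∀ μ : ℝ, K ≤ μ → 2 ≤ (W 0 μ b 0 + W 1 μ b 1).re) ∧
    (∀ ν : ℝ, 0 < ν → |(W 0 ((-ν ^ 2 : ℝ) : ℂ) b 0 + W 1 ((-ν ^ 2 : ℝ) : ℂ) b 1).re
      - 2 * Real.cos (ν * b)| ≤ 2 * (Real.exp (K * b / ν) - 1)) := by
  refine ⟨?_, ?_, ?_⟩
  · intro μ
    obtain ⟨c, c', s, s', hc, hs, c0, c0', s0, s0', h⟩ := real_pair hq hW0 hW μ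
    rw [h, Complex.ofReal_im]
  · intro μ hμ
    obtain ⟨c, c', s, s', hc, hs, c0, c0', s0, s0', h⟩ := real_pair hq hW0 hW μ
    rw [h, Complex.ofReal_re]
    refine disc_ge_two hc hs (fun x => ?_) c0 c0' s0 s0' hb
    have := (abs_le.1 (hqK x)).2
    linarith
  · intro ν hν
    obtain ⟨c, c', s, s', hc, hs, c0, c0', s0, s0', h⟩ := real_pair hq hW0 hW (-ν ^ 2)
    rw [h, Complex.ofReal_re]
    exact disc_cos hν hK hqK hc hs c0 c0' s0 s0' hb

/-- a critical point of the discriminant inside a gap -/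
lemma exists_crit (hq : Continuous q) {K : ℝ} (hK : 0 < K) (hqK : ∀ x, |q x| ≤ K)
    (hW0 : ∀ j l, W j l 0 = Pi.single j 1)
    (hW : ∀ j l, IsSys (comp2 fun x => (q x : ℂ)) spec2 l (W j l))
    (hWd : ∀ j x, Differentiable ℂ (fun l => W j l x)) {b : ℝ} (hb : 0 < b)
    {μ1 : ℝ} (h1 : (W 0 μ1 b 0 + W 1 μ1 b 1).re < -2) :
    ∃ μ0 : ℝ, HasDerivAt (fun l => W 0 l b 0 + W 1 l b 1) 0 (μ0 : ℂ) ∧
      (W 0 μ0 b 0 + W 1 μ0 b 1) ^ 2 ≠ 4 := by
  obtain ⟨f1, f2, f3⟩ := disc_facts hq hK hqK hW0 hW hb.le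
  set δ : ℂ → ℂ := fun l => W 0 l b 0 + W 1 l b 1 with hδ
  have hδd : Differentiable ℂ δ :=
    ((differentiable_pi.1 (hWd 0 b)) 0).add ((differentiable_pi.1 (hWd 1 b)) 1)
  obtain ⟨N, hN0, hN⟩ := exp_small K b
  -- the left point
  obtain ⟨k, hk⟩ := exists_nat_gt (max (N * b / (2 * Real.pi)) ((|μ1| + 1) * b / (2 * Real.pi)))
  have h2pi : 0 < 2 * Real.pi := by positivity
  set ν : ℝ := k * (2 * Real.pi) / b with hν
  have hk1 : N < ν := by
    have := (le_max_left _ _).trans_lt hk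
    rw [div_lt_iff₀ h2pi] at this
    rw [hν, lt_div_iff₀ hb]
    exact this
  have hk2 : |μ1| + 1 < ν := by
    have := (le_max_right _ _).trans_lt hk
    rw [div_lt_iff₀ h2pi] at this
    rw [hν, lt_div_iff₀ hb]
    exact this
  have hν0 : 0 < ν := hN0.trans hk1
  have hcos : Real.cos (ν * b) = 1 := by
    have : ν * b = k * (2 * Real.pi) := by rw [hν]; field_simp
    rw [this]
    exact Real.cos_nat_mul_two_pi k
  have hL := f3 ν hν0
  rw [hcos] at hL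
  have hL2 : (1:ℝ) ≤ (δ ((-ν ^ 2 : ℝ) : ℂ)).re := by
    have e1 := hN ν hk1.le
    have e2 := (abs_le.1 (hL.trans e1)).1
    show (1:ℝ) ≤ (W 0 ((-ν ^ 2 : ℝ) : ℂ) b 0 + W 1 ((-ν ^ 2 : ℝ) : ℂ) b 1).re
    linarith
  have hlt1 : -ν ^ 2 < μ1 := by
    have h3 : |μ1| < ν := by linarith
    have h4 : 1 < ν := by linarith [abs_nonneg μ1]
    have h5 := neg_abs_le μ1
    nlinarith
  set μ3 : ℝ := max K (μ1 + 1) with hμ3
  have hR : 2 ≤ (δ (μ3 : ℂ)).re := f2 μ3 (le_max_left _ _)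
  have hlt3 : μ1 < μ3 := lt_of_lt_of_le (by linarith) (le_max_right _ _)
  have hcont : Continuous fun μ : ℝ => (δ μ).re :=
    Complex.continuous_re.comp (hδd.continuous.comp Complex.continuous_ofReal)
  obtain ⟨μ0, hμ0, hmin⟩ := isCompact_Icc.exists_isMinOn (s := Set.Icc (-ν ^ 2) μ3)
    ⟨μ1, hlt1.le, hlt3.le⟩ hcont.continuousOn
  have hval : (δ μ0).re < -2 := lt_of_le_of_lt (hmin ⟨hlt1.le, hlt3.le⟩) h1
  have hne1 : μ0 ≠ -ν ^ 2 := by
    intro h
    rw [h] at hval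
    linarith
  have hne3 : μ0 ≠ μ3 := by
    intro h
    rw [h] at hval
    linarith
  have hmem : Set.Icc (-ν ^ 2) μ3 ∈ 𝓝 μ0 :=
    Icc_mem_nhds (lt_of_le_of_ne hμ0.1 (Ne.symm hne1)) (lt_of_le_of_ne hμ0.2 hne3)
  have hloc : IsLocalMin (fun μ : ℝ => (δ μ).re) μ0 := hmin.isLocalMin hmem
  have hder := (hδd (μ0 : ℂ)).hasDerivAt
  have hre : HasDerivAt (fun μ : ℝ => (δ μ).re) (deriv δ μ0).re μ0 := hder.real_of_complex
  have hre0 : (deriv δ μ0).re = 0 := hloc.hasDerivAt_eq_zero hre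
  have him : HasDerivAt (fun μ : ℝ => ((-Complex.I) * δ μ).re) ((-Complex.I) * deriv δ μ0).re μ0 :=
    (hder.const_mul (-Complex.I)).real_of_complex
  have hfun : (fun μ : ℝ => ((-Complex.I) * δ μ).re) = fun _ => 0 := by
    funext μ
    have := f1 μ
    have e : ((-Complex.I) * δ μ).re = (δ μ).im := by simp
    rw [e]
    exact this
  rw [hfun] at him
  have him0 : ((-Complex.I) * deriv δ μ0).re = 0 := him.unique (hasDerivAt_const _ _)
  have him1 : (deriv δ μ0).im = 0 := by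
    have e : ((-Complex.I) * deriv δ μ0).re = (deriv δ μ0).im := by simp
    rw [← e]; exact him0
  have hd0 : deriv δ μ0 = 0 := Complex.ext hre0 him1
  refine ⟨μ0, ?_, ?_⟩
  · rw [← hd0]; exact hder
  · intro h
    have him2 := f1 μ0
    have e : δ μ0 = (((δ μ0).re : ℝ) : ℂ) := by
      apply Complex.ext
      · simp
      · rw [Complex.ofReal_im]; exact him2
    have h' : δ μ0 ^ 2 = 4 := h
    rw [e] at h'
    have h'' : (δ μ0).re ^ 2 = 4 := by exact_mod_cast h'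
    nlinarith

/-- the discriminant is not symmetric about any real point -/
lemma not_even (hq : Continuous q) {K : ℝ} (hK : 0 < K) (hqK : ∀ x, |q x| ≤ K)
    (hW0 : ∀ j l, W j l 0 = Pi.single j 1)
    (hW : ∀ j l, IsSys (comp2 fun x => (q x : ℂ)) spec2 l (W j l))
    (hWd : ∀ j x, Differentiable ℂ (fun l => W j l x)) {b : ℝ} (hb : 0 < b) (μ0 : ℝ) :
    ∀ᶠ m in 𝓝[≠] (0:ℂ), W 0 (m + μ0) b 0 + W 1 (m + μ0) b 1
      ≠ W 0 (-m + μ0) b 0 + W 1 (-m + μ0) b 1 := by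
  obtain ⟨f1, f2, f3⟩ := disc_facts hq hK hqK hW0 hW hb.le
  set δ : ℂ → ℂ := fun l => W 0 l b 0 + W 1 l b 1 with hδ
  have hδd : Differentiable ℂ δ :=
    ((differentiable_pi.1 (hWd 0 b)) 0).add ((differentiable_pi.1 (hWd 1 b)) 1)
  set g : ℂ → ℂ := fun m => δ (m + μ0) - δ (-m + μ0) with hg
  have hgd : Differentiable ℂ g := by
    have e1 : Differentiable ℂ fun m : ℂ => m + μ0 := by fun_prop
    have e2 : Differentiable ℂ fun m : ℂ => -m + μ0 := by fun_prop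
    exact (hδd.comp e1).sub (hδd.comp e2)
  have hgan : AnalyticOnNhd ℂ g Set.univ := fun z _ => hgd.analyticAt z
  rcases (hgan 0 (Set.mem_univ _)).eventually_eq_zero_or_eventually_ne_zero with h | h
  · exfalso
    have hzero : ∀ z, g z = 0 := by
      intro z
      have := hgan.eqOn_zero_of_preconnected_of_eventuallyEq_zero isPreconnected_univ
        (Set.mem_univ 0) h (Set.mem_univ z)
      exact this
    obtain ⟨N, hN0, hN⟩ := exp_small K b
    obtain ⟨k, hk⟩ := exists_nat_gt (max (N * b / (2 * Real.pi))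
      ((|μ0| * 2 + K + 1) * b / (2 * Real.pi)))
    have h2pi : 0 < 2 * Real.pi := by positivity
    set ν : ℝ := (k * (2 * Real.pi) + Real.pi / 2) / b with hν
    have hpi : 0 < Real.pi / 2 := by positivity
    have hk1 : N < ν := by
      have := (le_max_left _ _).trans_lt hk
      rw [div_lt_iff₀ h2pi] at this
      rw [hν, lt_div_iff₀ hb]
      linarith
    have hk2 : |μ0| * 2 + K + 1 < ν := by
      have := (le_max_right _ _).trans_lt hk
      rw [div_lt_iff₀ h2pi] at this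
      rw [hν, lt_div_iff₀ hb]
      linarith
    have hν0 : 0 < ν := hN0.trans hk1
    have hcos : Real.cos (ν * b) = 0 := by
      have : ν * b = Real.pi / 2 + k * (2 * Real.pi) := by rw [hν]; field_simp; ring
      rw [this, Real.cos_add_nat_mul_two_pi, Real.cos_pi_div_two]
    have hL := f3 ν hν0
    rw [hcos] at hL
    have hL2 : (δ ((-ν ^ 2 : ℝ) : ℂ)).re ≤ 1 := by
      have e1 := hN ν hk1.le
      have e2 := (abs_le.1 (hL.trans e1)).2
      show (W 0 ((-ν ^ 2 : ℝ) : ℂ) b 0 + W 1 ((-ν ^ 2 : ℝ) : ℂ) b 1).re ≤ 1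
      linarith
    have hR := f2 (2 * μ0 + ν ^ 2) (by
      have h5 := neg_abs_le μ0
      have h6 := abs_nonneg μ0
      have h7 : 1 < ν := by linarith
      nlinarith)
    have hz := hzero ((μ0 + ν ^ 2 : ℝ) : ℂ)
    have e1 : (((μ0 + ν ^ 2 : ℝ) : ℂ) + μ0) = ((2 * μ0 + ν ^ 2 : ℝ) : ℂ) := by push_cast; ring
    have e2 : (-((μ0 + ν ^ 2 : ℝ) : ℂ) + μ0) = ((-ν ^ 2 : ℝ) : ℂ) := by push_cast; ring
    rw [hg] at hz
    simp only at hz
    rw [e1, e2, sub_eq_zero] at hz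
    have hR' : 2 ≤ (δ ((2 * μ0 + ν ^ 2 : ℝ) : ℂ)).re := hR
    rw [hz] at hR'
    linarith
  · filter_upwards [h] with m hm
    intro heq
    apply hm
    show δ (m + μ0) - δ (-m + μ0) = 0
    rw [sub_eq_zero]
    exact heq

end Disc

end Pool.Agent.W795.Floq
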