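import Pool.Agent.W795.FloqDisc

/-! The explicit potential and the final theorem. -/

set_option autoImplicit false

namespace Pool.Agent.W795.Floq

open Filter Topology Matrix
open scoped ContDiff

/-- the potential -/
noncomputable def q0 (x : ℝ) : ℝ :=
  (4 * Real.cos x ^ 2 - 8 * Real.sin x * Real.cos x - 2 * Real.sin x ^ 2)
    / (1 - Real.sin x * Real.cos x)

lemma den_pos (x : ℝ) : 1 / 2 ≤ 1 - Real.sin x * Real.cos x := by
  nlinarith [sq_nonneg (Real.sin x - Real.cos x), Real.sin_sq_add_cos_sq x]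

lemma q0_smooth : ContDiff ℝ ∞ q0 := by
  unfold q0
  refine ContDiff.div ?_ ?_ ?_
  · exact ((contDiff_const.mul (Real.contDiff_cos.pow 2)).sub
      ((contDiff_const.mul Real.contDiff_sin).mul Real.contDiff_cos)).sub
      (contDiff_const.mul (Real.contDiff_sin.pow 2))
  · exact contDiff_const.sub (Real.contDiff_sin.mul Real.contDiff_cos)
  · intro x
    have := den_pos x
    linarith

lemma q0_per (x : ℝ) : q0 (x + Real.pi) = q0 x := by
  unfold q0
  rw [Real.sin_add_pi, Real.cos_add_pi]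
  ring_nf

lemma q0_bound (x : ℝ) : |q0 x| ≤ 28 := by
  unfold q0
  have h1 := den_pos x
  rw [abs_div, abs_of_pos (by linarith : (0:ℝ) < 1 - Real.sin x * Real.cos x), div_le_iff₀ (by linarith)]
  have h2 := Real.sin_sq_add_cos_sq x
  have h3 : |4 * Real.cos x ^ 2 - 8 * Real.sin x * Real.cos x - 2 * Real.sin x ^ 2| ≤ 14 := by
    rw [abs_le]
    constructor <;>
    nlinarith [sq_nonneg (Real.sin x - Real.cos x), sq_nonneg (Real.sin x + Real.cos x),
      sq_nonneg (Real.sin x), sq_nonneg (Real.cos x)]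
  linarith

/-- the explicit solution -/
noncomputable def u0 (x : ℝ) : ℝ := Real.exp x * (Real.sin x - Real.sin x ^ 2 * Real.cos x)

/-- its derivative -/
noncomputable def u0' (x : ℝ) : ℝ :=
  Real.exp x * (Real.sin x - Real.sin x ^ 2 * Real.cos x
    + (Real.cos x - 2 * Real.sin x * Real.cos x ^ 2 + Real.sin x ^ 3))

lemma u0_sol : RSol (fun x => ((0:ℝ)) - q0 x) u0 u0' := by
  intro x
  have hs := Real.hasDerivAt_sin x
  have hc := Real.hasDerivAt_cos x
  have he := Real.hasDerivAt_exp x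
  have h1 : HasDerivAt (fun x => Real.sin x - Real.sin x ^ 2 * Real.cos x)
      (Real.cos x - 2 * Real.sin x * Real.cos x ^ 2 + Real.sin x ^ 3) x := by
    refine (hs.fun_sub ((hs.fun_pow 2).fun_mul hc)).congr_deriv ?_
    push_cast
    ring
  have h2 : HasDerivAt (fun x => Real.cos x - 2 * Real.sin x * Real.cos x ^ 2 + Real.sin x ^ 3)
      (-Real.sin x - 2 * Real.cos x ^ 3 + 7 * Real.sin x ^ 2 * Real.cos x) x := by
    refine ((hc.fun_sub ((hs.const_mul 2).fun_mul (hc.fun_pow 2))).fun_add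
      (hs.fun_pow 3)).congr_deriv ?_
    push_cast
    ring
  refine ⟨?_, ?_⟩
  · refine (he.fun_mul h1).congr_deriv ?_
    unfold u0'
    ring
  · refine (he.fun_mul (h1.fun_add h2)).congr_deriv ?_
    unfold u0 q0
    have hd := den_pos x
    have hd' : 1 - Real.sin x * Real.cos x ≠ 0 := by linarith
    have h3 := Real.sin_sq_add_cos_sq x
    have e1 : (0 - (4 * Real.cos x ^ 2 - 8 * Real.sin x * Real.cos x - 2 * Real.sin x ^ 2)
        / (1 - Real.sin x * Real.cos x)) * (Real.exp x * (Real.sin x - Real.sin x ^ 2 * Real.cos x))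
        = -(Real.exp x * Real.sin x
          * (4 * Real.cos x ^ 2 - 8 * Real.sin x * Real.cos x - 2 * Real.sin x ^ 2)) := by
      have key : ∀ (N d E S : ℝ), d ≠ 0 → (0 - N / d) * (E * (S * d)) = -(E * S * N) := by
        intro N d E S hd
        field_simp
        ring
      have e2 : Real.sin x - Real.sin x ^ 2 * Real.cos x
          = Real.sin x * (1 - Real.sin x * Real.cos x) := by ring
      rw [e2]
      exact key _ _ _ _ hd'
    rw [e1]
    linear_combination (-2 * Real.exp x * Real.cos x) * h3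

lemma gap_value {W : Fin 2 → ℂ → ℝ → (Fin 2 → ℂ)} (hW0 : ∀ j l, W j l 0 = Pi.single j 1)
    (hW : ∀ j l, IsSys (comp2 fun x => (q0 x : ℂ)) spec2 l (W j l)) :
    (W 0 ((0:ℝ):ℂ) Real.pi 0 + W 1 ((0:ℝ):ℂ) Real.pi 1).re < -2 := by
  obtain ⟨c, c', s, s', hc, hs, c0, c0', s0, s0', h⟩ := real_pair q0_smooth.continuous hW0 hW 0
  rw [h, Complex.ofReal_re]
  have w1 := rsol_wronsk hc u0_sol Real.pi
  have w2 := rsol_wronsk hs u0_sol Real.pi
  have w3 := rsol_wronsk hc hs Real.pi
  have a0 : u0 0 = 0 := by simp [u0]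
  have a1 : u0' 0 = 1 := by simp [u0']
  have b0 : u0 Real.pi = 0 := by simp [u0]
  have b1 : u0' Real.pi = -Real.exp Real.pi := by simp [u0']
  rw [a0, a1, b0, b1, c0, c0'] at w1
  rw [a0, a1, b0, b1, s0, s0'] at w2
  rw [c0, c0', s0, s0'] at w3
  have hE : 0 < Real.exp Real.pi := Real.exp_pos _
  have hE1 : 1 < Real.exp Real.pi := by
    rw [← Real.exp_zero]; exact Real.exp_lt_exp.2 Real.pi_pos
  have hs0 : s Real.pi = 0 := by
    have : s Real.pi * Real.exp Real.pi = 0 := by linarith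
    exact (mul_eq_zero.1 this).resolve_right hE.ne'
  rw [hs0] at w3
  have hcE : c Real.pi * Real.exp Real.pi = -1 := by linarith
  have hcs : c Real.pi * s' Real.pi = 1 := by linarith
  have hcne : c Real.pi ≠ 0 := by
    intro h0
    rw [h0] at hcs
    norm_num at hcs
  have hs' : s' Real.pi = -Real.exp Real.pi := by
    have : c Real.pi * (s' Real.pi + Real.exp Real.pi) = 0 := by
      rw [mul_add, hcs, hcE]; norm_num
    have := (mul_eq_zero.1 this).resolve_left hcne
    linarith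
  have hc2 : c Real.pi = -(Real.exp Real.pi)⁻¹ := by
    field_simp
    linarith
  rw [hs', hc2]
  have h4 : Real.exp Real.pi * (Real.exp Real.pi)⁻¹ = 1 := mul_inv_cancel₀ hE.ne'
  set E := Real.exp Real.pi with hEdef
  have h5 : 0 < E⁻¹ := inv_pos.2 hE
  have h6 : E⁻¹ < 1 := inv_lt_one_of_one_lt₀ hE1
  nlinarith [mul_pos (sub_pos.2 hE1) (sub_pos.2 h6)]

lemma deriv_per {f : ℝ → ℝ} {b : ℝ} (h : ∀ x, f (x + b) = f x) (x : ℝ) :
    deriv f (x + b) = deriv f x := by
  have : (fun x => f (x + b)) = f := funext h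
  rw [← deriv_comp_add_const, this]

theorem main :
    ∃ p : ℕ → ℝ → ℂ, (∀ k, ContDiff ℝ ∞ (p k)) ∧ (∀ k x, (p k x).im = 0) ∧
      (∀ k x, p k (x + Real.pi) = p k x) ∧
      (∃ T : ℂ → Matrix (Fin 4) (Fin 4) ℂ, IsFloquetMatrix 4 Real.pi p T) ∧
      ∀ T : ℂ → Matrix (Fin 4) (Fin 4) ℂ, IsFloquetMatrix 4 Real.pi p T →
        (∀ i j, Differentiable ℂ (fun l => T l i j)) ∧ HasFirstKindPathology T 0 := by
  have hq0c : Continuous fun x => (q0 x : ℂ) := Complex.continuous_ofReal.comp q0_smooth.continuous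
  obtain ⟨W, hW0, hW, hWd, -⟩ := exists_monodromy (comp2_cont hq0c) spec2
  obtain ⟨μ0, hcrit, hne4⟩ := exists_crit q0_smooth.continuous (by norm_num) q0_bound hW0 hW hWd
    Real.pi_pos (gap_value hW0 hW)
  have hneven := not_even q0_smooth.continuous (by norm_num) q0_bound hW0 hW hWd Real.pi_pos μ0
  -- the shifted potential
  set r : ℝ → ℝ := fun x => q0 x - μ0 with hr
  have hrs : ContDiff ℝ ∞ r := q0_smooth.sub contDiff_const
  have hrs1 : ContDiff ℝ ∞ (deriv r) := by
    have : ContDiff ℝ (∞ + 1) r := by simpa using hrs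
    exact (contDiff_succ_iff_deriv.1 this).2.2
  have hrs2 : ContDiff ℝ ∞ (deriv (deriv r)) := by
    have : ContDiff ℝ (∞ + 1) (deriv r) := by simpa using hrs1
    exact (contDiff_succ_iff_deriv.1 this).2.2
  have hrp : ∀ x, r (x + Real.pi) = r x := by intro x; rw [hr]; simp only [q0_per]
  have hrp1 : ∀ x, deriv r (x + Real.pi) = deriv r x := deriv_per hrp
  have hrp2 : ∀ x, deriv (deriv r) (x + Real.pi) = deriv (deriv r) x := deriv_per hrp1
  set Q : ℝ → ℂ := fun x => (r x : ℂ) with hQ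
  set Q1 : ℝ → ℂ := fun x => ((deriv r x : ℝ) : ℂ) with hQ1
  set Q2 : ℝ → ℂ := fun x => ((deriv (deriv r) x : ℝ) : ℂ) with hQ2
  have hQs : ContDiff ℝ ∞ Q := Complex.ofRealCLM.contDiff.comp hrs
  have hQ1s : ContDiff ℝ ∞ Q1 := Complex.ofRealCLM.contDiff.comp hrs1
  have hQ2s : ContDiff ℝ ∞ Q2 := Complex.ofRealCLM.contDiff.comp hrs2
  have hdQ : ∀ x, HasDerivAt Q (Q1 x) x := fun x =>
    ((hrs.differentiable (by simp)) x).hasDerivAt.ofReal_comp
  have hdQ1 : ∀ x, HasDerivAt Q1 (Q2 x) x := fun x =>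
    ((hrs1.differentiable (by simp)) x).hasDerivAt.ofReal_comp
  obtain ⟨T, hT1, hT2, hT3, hT4⟩ := pathology_square hdQ hdQ1 hQ2s.continuous (b := Real.pi)
    (fun x => by simp only [hQ, hrp]) (fun x => by simp only [hQ1, hrp1])
    (fun x => by simp only [hQ2, hrp2])
    (W := fun j m => W j (m + μ0)) (fun j l => hW0 j _) (fun j l => by
      have h := hW j (l + μ0)
      rw [sys2_iff] at h ⊢
      intro x
      refine ⟨(h x).1, (h x).2.congr_deriv ?_⟩
      rw [hQ, hr]
      push_cast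
      ring) (fun j x => by
      have e1 : Differentiable ℂ fun m : ℂ => m + μ0 := by fun_prop
      exact (hWd j x).comp e1) (by
      have h : HasDerivAt (fun l => W 0 l Real.pi 0 + W 1 l Real.pi 1) 0 ((0:ℂ) + μ0) := by
        rw [zero_add]; exact hcrit
      have := h.comp_add_const (0:ℂ) (μ0:ℂ)
      exact this.deriv) (by
      simpa only [zero_add] using hne4) hneven
  refine ⟨coef Q Q1 Q2, ?_, ?_, ?_, ⟨T, hT1⟩, ?_⟩
  · intro k
    match k with
    | 0 => exact hQ2s.add (hQs.pow 2)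
    | 1 => exact contDiff_const.mul hQ1s
    | 2 => exact contDiff_const.mul hQs
    | (k + 3) => exact contDiff_const
  · intro k x
    match k with
    | 0 =>
      show (((deriv (deriv r) x : ℝ) : ℂ) + ((r x : ℝ) : ℂ) ^ 2).im = 0
      rw [← Complex.ofReal_pow, ← Complex.ofReal_add, Complex.ofReal_im]
    | 1 =>
      show (2 * ((deriv r x : ℝ) : ℂ)).im = 0
      rw [show (2:ℂ) * ((deriv r x : ℝ) : ℂ) = ((2 * deriv r x : ℝ) : ℂ) by push_cast; ring,
        Complex.ofReal_im]
    | 2 =>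
      show (2 * ((r x : ℝ) : ℂ)).im = 0
      rw [show (2:ℂ) * ((r x : ℝ) : ℂ) = ((2 * r x : ℝ) : ℂ) by push_cast; ring,
        Complex.ofReal_im]
    | (k + 3) => rfl
  · intro k x
    match k with
    | 0 => simp only [coef, hQ, hQ2, hrp, hrp2]
    | 1 => simp only [coef, hQ1, hrp1]
    | 2 => simp only [coef, hQ, hrp]
    | (k + 3) => rfl
  · intro T' hT'
    rw [hT2 T' hT']
    exact ⟨hT3, hT4⟩

end Pool.Agent.W795.Floq
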