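import Pool.Agent.W795.FloqRel

/-! Hill's equation with a real potential: the discriminant on the real axis. -/

set_option autoImplicit false

namespace Pool.Agent.W795.Floq

open Filter Topology Matrix

/-- a real solution pair of `f'' = g f` -/
def RSol (g : ℝ → ℝ) (f f' : ℝ → ℝ) : Prop :=
  ∀ x, HasDerivAt f (f' x) x ∧ HasDerivAt f' (g x * f x) x

lemma exists_rsol {g : ℝ → ℝ} (hg : Continuous g) (y0 y1 : ℝ) :
    ∃ f f', RSol g f f' ∧ f 0 = y0 ∧ f' 0 = y1 := by
  set B : ℝ → (ℝ × ℝ) →L[ℝ] (ℝ × ℝ) := fun x =>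
    (ContinuousLinearMap.snd ℝ ℝ ℝ).prod (g x • ContinuousLinearMap.fst ℝ ℝ ℝ) with hB
  have hBc : Continuous B := by
    have e1 : Continuous fun _ : ℝ => ContinuousLinearMap.snd ℝ ℝ ℝ := continuous_const
    have e2 : Continuous fun x => g x • ContinuousLinearMap.fst ℝ ℝ ℝ := by fun_prop
    exact (ContinuousLinearMap.prodL (𝕜 := ℝ) (E := ℝ × ℝ) (F := ℝ) (G := ℝ)
      (S := ℝ)).continuous.comp (e1.prodMk e2)
  obtain ⟨Y, hY0, hY⟩ := exists_linear hBc (y0, y1)
  refine ⟨fun x => (Y x).1, fun x => (Y x).2, ?_, ?_, ?_⟩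
  · intro x
    exact ⟨(hY x).fst, (hY x).snd⟩
  · show (Y 0).1 = y0
    rw [hY0]
  · show (Y 0).2 = y1
    rw [hY0]

/-- positivity -/
lemma rsol_pos {g f f' : ℝ → ℝ} (h : RSol g f f') (hg : ∀ x, 0 ≤ g x) (h0 : 0 < f 0)
    (h1 : 0 ≤ f' 0) : ∀ x, 0 ≤ x → 0 < f x := by
  have hfc : Continuous f := continuous_iff_continuousAt.2 fun x => (h x).1.continuousAt
  have hd1 : ∀ x, HasDerivAt (fun x => f x * f' x) (f' x * f' x + f x * (g x * f x)) x :=
    fun x => (h x).1.mul (h x).2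
  have hmono : Monotone fun x => f x * f' x := by
    apply monotone_of_deriv_nonneg (fun x => (hd1 x).differentiableAt)
    intro x
    rw [(hd1 x).deriv]
    have := hg x
    have e : f' x * f' x + f x * (g x * f x) = f' x ^ 2 + g x * f x ^ 2 := by ring
    rw [e]
    positivity
  have hnn : ∀ x, 0 ≤ x → 0 ≤ f x * f' x := by
    intro x hx
    have := hmono hx
    have h2 : 0 ≤ f 0 * f' 0 := mul_nonneg h0.le h1
    exact h2.trans this
  have hd2 : ∀ x, HasDerivAt (fun x => f x ^ 2) (2 * (f x * f' x)) x := by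
    intro x
    refine ((h x).1.pow 2).congr_deriv ?_
    simp; ring
  have hsq : ∀ x, 0 ≤ x → f 0 ^ 2 ≤ f x ^ 2 := by
    intro x hx
    have hm : MonotoneOn (fun x => f x ^ 2) (Set.Ici 0) := by
      apply monotoneOn_of_deriv_nonneg (convex_Ici 0)
      · exact (hfc.pow 2).continuousOn
      · exact fun x _ => (hd2 x).differentiableAt.differentiableWithinAt
      · intro y hy
        rw [interior_Ici] at hy
        rw [(hd2 y).deriv]
        have := hnn y (le_of_lt hy)
        linarith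
    exact hm (Set.mem_Ici.2 le_rfl) (Set.mem_Ici.2 hx) hx
  intro x hx
  by_contra hneg
  push Not at hneg
  have : (0:ℝ) ∈ f '' Set.Icc 0 x :=
    intermediate_value_Icc' hx hfc.continuousOn ⟨hneg, h0.le⟩
  obtain ⟨y, hy, hfy⟩ := this
  have h3 := hsq y hy.1
  rw [hfy] at h3
  nlinarith

lemma rsol_comb {g f f' k k' : ℝ → ℝ} (h : RSol g f f') (hk : RSol g k k') (a b : ℝ) :
    RSol g (fun x => a * f x + b * k x) (fun x => a * f' x + b * k' x) := by
  intro x
  exact ⟨((h x).1.const_mul a).add ((hk x).1.const_mul b),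
    (((h x).2.const_mul a).add ((hk x).2.const_mul b)).congr_deriv (by ring)⟩

lemma rsol_wronsk {g f f' k k' : ℝ → ℝ} (h : RSol g f f') (hk : RSol g k k') (x : ℝ) :
    f x * k' x - f' x * k x = f 0 * k' 0 - f' 0 * k 0 := by
  have hd : ∀ x, HasDerivAt (fun x => f x * k' x - f' x * k x) 0 x := fun x =>
    (((h x).1.mul (hk x).2).sub ((h x).2.mul (hk x).1)).congr_deriv (by ring)
  exact is_const_of_deriv_eq_zero (fun x => (hd x).differentiableAt) (fun x => (hd x).deriv) x 0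

/-- above the potential the discriminant is at least `2` -/
lemma disc_ge_two {g c c' s s' : ℝ → ℝ} (hc : RSol g c c') (hs : RSol g s s')
    (hg : ∀ x, 0 ≤ g x) (c0 : c 0 = 1) (c0' : c' 0 = 0) (s0 : s 0 = 0) (s0' : s' 0 = 1)
    {b : ℝ} (hb : 0 ≤ b) : 2 ≤ c b + s' b := by
  have hcpos := rsol_pos hc hg (by rw [c0]; norm_num) (by rw [c0'])
  have hsnn : 0 ≤ s b := by
    have h1 : ∀ ε : ℝ, 0 < ε → 0 ≤ s b + ε * c b := by
      intro ε hε
      have := rsol_pos (rsol_comb hs hc 1 ε) hg (by simp [s0, c0, hε]) (by simp [s0', c0']) b hb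
      simp only [one_mul] at this
      exact this.le
    have hcb := hcpos b hb
    by_contra hneg
    push Not at hneg
    have h2 := h1 (-(s b) / (2 * c b)) (by apply div_pos <;> linarith)
    have h3 : s b + -(s b) / (2 * c b) * c b = s b / 2 := by field_simp; ring
    rw [h3] at h2
    linarith
  have hc'nn : 0 ≤ c' b := by
    have hm : MonotoneOn c' (Set.Ici 0) := by
      apply monotoneOn_of_deriv_nonneg (convex_Ici 0)
      · exact fun x _ => (hc x).2.continuousAt.continuousWithinAt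
      · exact fun x _ => (hc x).2.differentiableAt.differentiableWithinAt
      · intro y hy
        rw [interior_Ici] at hy
        rw [(hc y).2.deriv]
        exact mul_nonneg (hg y) (hcpos y (le_of_lt hy)).le
    have := hm (Set.mem_Ici.2 le_rfl) (Set.mem_Ici.2 hb) hb
    rwa [c0'] at this
  have hw := rsol_wronsk hc hs b
  rw [c0, c0', s0, s0'] at hw
  have hcb := hcpos b hb
  have h1 : 1 ≤ c b * s' b := by nlinarith [mul_nonneg hc'nn hsnn]
  have h2 : 0 < s' b := by
    by_contra hneg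
    push Not at hneg
    nlinarith
  nlinarith [sq_nonneg (c b - s' b)]

/-- amplitude estimate -/
lemma amp_bound {q f f' : ℝ → ℝ} {ν K : ℝ} (hν : 0 < ν) (hK : 0 < K) (hq : ∀ x, |q x| ≤ K)
    (h : RSol (fun x => -ν ^ 2 - q x) f f') {b : ℝ} (hb : 0 ≤ b) :
    ‖((f' b : ℂ) + Complex.I * ν * f b)
      - ((f' 0 : ℂ) + Complex.I * ν * f 0) * Complex.exp (Complex.I * ν * b)‖
      ≤ ‖((f' 0 : ℂ) + Complex.I * ν * f 0)‖ * (Real.exp (K * b / ν) - 1) := by
  set a : ℝ → ℂ := fun x => ((f' x : ℂ) + Complex.I * ν * f x) * Complex.exp (-(Complex.I * ν * x))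
    with ha
  have hda : ∀ x, HasDerivAt a (-(q x : ℂ) * f x * Complex.exp (-(Complex.I * ν * x))) x := by
    intro x
    have e1 : HasDerivAt (fun x => (f x : ℂ)) (f' x : ℂ) x := (h x).1.ofReal_comp
    have e2 : HasDerivAt (fun x => (f' x : ℂ)) (((-ν ^ 2 - q x) * f x : ℝ) : ℂ) x :=
      (h x).2.ofReal_comp
    have e3 : HasDerivAt (fun x : ℝ => -(Complex.I * ν * (x:ℂ))) (-(Complex.I * ν)) x := by
      have e : (fun x : ℝ => -(Complex.I * ν * (x:ℂ)))
          = fun x : ℝ => (-(Complex.I * ν)) * (x:ℂ) := by funext x; ring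
      rw [e]
      have := (Complex.ofRealCLM.hasDerivAt (x := x)).const_mul (-(Complex.I * ν))
      simpa using this
    have e4 := e3.cexp
    refine ((e2.fun_add (e1.const_mul (Complex.I * ν))).fun_mul e4).congr_deriv ?_
    push_cast
    have hI : Complex.I ^ 2 = -1 := Complex.I_sq
    linear_combination (-(ν:ℂ) ^ 2 * f x * Complex.exp (-(Complex.I * ν * x))) * hI
  have hexp : ∀ x : ℝ, ‖Complex.exp (-(Complex.I * ν * x))‖ = 1 := by
    intro x
    rw [Complex.norm_exp]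
    simp
  have hlow : ∀ x, ν * |f x| ≤ ‖a x‖ := by
    intro x
    rw [ha]
    simp only
    rw [norm_mul, hexp, mul_one]
    have e := Complex.abs_im_le_norm ((f' x : ℂ) + Complex.I * ν * f x)
    have e2 : ((f' x : ℂ) + Complex.I * ν * f x).im = ν * f x := by simp
    rw [e2, abs_mul, abs_of_pos hν] at e
    exact e
  have hD : ∀ x, HasDerivAt (fun x => a x - a 0)
      (-(q x : ℂ) * f x * Complex.exp (-(Complex.I * ν * x))) x := fun x =>
    (hda x).sub_const (a 0)
  have hKν : 0 < K / ν := div_pos hK hν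
  have hbd := gronwall_two (δ := 0) (K := K / ν) (ε := K / ν * ‖a 0‖) (R := b) hD
    (by simp) (fun x _ => by
      have e1 : ‖-(q x : ℂ) * f x * Complex.exp (-(Complex.I * ν * x))‖ = |q x| * |f x| := by
        rw [norm_mul, hexp, mul_one, norm_mul, norm_neg, Complex.norm_real, Complex.norm_real,
          Real.norm_eq_abs, Real.norm_eq_abs]
      rw [e1]
      have e2 : |f x| ≤ ‖a x‖ / ν := by
        rw [le_div_iff₀ hν]; linarith [hlow x]
      have e3 : ‖a x‖ ≤ ‖a x - a 0‖ + ‖a 0‖ := norm_le_norm_sub_add _ _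
      calc |q x| * |f x| ≤ K * (‖a x‖ / ν) :=
            mul_le_mul (hq x) e2 (abs_nonneg _) hK.le
        _ ≤ K * ((‖a x - a 0‖ + ‖a 0‖) / ν) := by gcongr
        _ = K / ν * ‖a x - a 0‖ + K / ν * ‖a 0‖ := by ring) b (by rw [abs_of_nonneg hb])
  rw [gronwallBound_of_K_ne_0 hKν.ne', abs_of_nonneg hb] at hbd
  simp only [zero_mul, zero_add] at hbd
  have e5 : K / ν * ‖a 0‖ / (K / ν) = ‖a 0‖ := by field_simp
  have e6 : K / ν * b = K * b / ν := by ring
  rw [e5, e6] at hbd
  have ea0 : a 0 = (f' 0 : ℂ) + Complex.I * ν * f 0 := by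
    rw [ha]; simp
  rw [← ea0]
  have hfac : ((f' b : ℂ) + Complex.I * ν * f b) - a 0 * Complex.exp (Complex.I * ν * b)
      = (a b - a 0) * Complex.exp (Complex.I * ν * b) := by
    rw [sub_mul]
    congr 1
    have h1 : Complex.exp (-(Complex.I * ν * b)) * Complex.exp (Complex.I * ν * b) = 1 := by
      rw [← Complex.exp_add, neg_add_cancel, Complex.exp_zero]
    show _ = ((f' b : ℂ) + Complex.I * ν * f b) * Complex.exp (-(Complex.I * ν * b))
      * Complex.exp (Complex.I * ν * b)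
    linear_combination (-((f' b : ℂ) + Complex.I * ν * f b)) * h1
  rw [hfac, norm_mul]
  have : ‖Complex.exp (Complex.I * ν * b)‖ = 1 := by
    rw [Complex.norm_exp]
    simp
  rw [this, mul_one]
  exact hbd

/-- the discriminant far below the potential -/
lemma disc_cos {q c c' s s' : ℝ → ℝ} {ν K : ℝ} (hν : 0 < ν) (hK : 0 < K) (hq : ∀ x, |q x| ≤ K)
    (hc : RSol (fun x => -ν ^ 2 - q x) c c') (hs : RSol (fun x => -ν ^ 2 - q x) s s')
    (c0 : c 0 = 1) (c0' : c' 0 = 0) (s0 : s 0 = 0) (s0' : s' 0 = 1) {b : ℝ} (hb : 0 ≤ b) :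
    |c b + s' b - 2 * Real.cos (ν * b)| ≤ 2 * (Real.exp (K * b / ν) - 1) := by
  have e1 := amp_bound hν hK hq hc hb
  have e2 := amp_bound hν hK hq hs hb
  rw [c0, c0'] at e1
  rw [s0, s0'] at e2
  have hex : Complex.exp (Complex.I * ν * b) = (Real.cos (ν * b) : ℂ) + Complex.I * Real.sin (ν * b) := by
    rw [show Complex.I * ν * b = ((ν * b : ℝ) : ℂ) * Complex.I by push_cast; ring, Complex.exp_mul_I]
    push_cast
    ring
  rw [hex] at e1 e2
  generalize Real.cos (ν * b) = C at *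
  generalize Real.sin (ν * b) = S at *
  have i1 := Complex.abs_im_le_norm (((c' b : ℂ) + Complex.I * ν * c b)
      - (((0:ℝ) : ℂ) + Complex.I * ν * ((1:ℝ):ℂ)) * ((C : ℂ) + Complex.I * S))
  have i2 := Complex.abs_re_le_norm (((s' b : ℂ) + Complex.I * ν * s b)
      - (((1:ℝ) : ℂ) + Complex.I * ν * ((0:ℝ):ℂ)) * ((C : ℂ) + Complex.I * S))
  have j1 : ((((c' b : ℂ) + Complex.I * ν * c b)
      - (((0:ℝ) : ℂ) + Complex.I * ν * ((1:ℝ):ℂ)) * ((C : ℂ)
        + Complex.I * S))).im = ν * (c b - C) := by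
    simp
    ring
  have j2 : ((((s' b : ℂ) + Complex.I * ν * s b)
      - (((1:ℝ) : ℂ) + Complex.I * ν * ((0:ℝ):ℂ)) * ((C : ℂ)
        + Complex.I * S))).re = s' b - C := by
    simp
  have n1 : ‖(((0:ℝ) : ℂ) + Complex.I * ν * ((1:ℝ):ℂ))‖ = ν := by
    simp [abs_of_pos hν]
  have n2 : ‖(((1:ℝ) : ℂ) + Complex.I * ν * ((0:ℝ):ℂ))‖ = 1 := by
    simp
  rw [n1] at e1
  rw [n2, one_mul] at e2
  rw [j1] at i1
  rw [j2] at i2
  have k1 : |c b - C| ≤ Real.exp (K * b / ν) - 1 := by
    have := i1.trans e1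
    rw [abs_mul, abs_of_pos hν] at this
    exact le_of_mul_le_mul_left this hν
  have k2 := i2.trans e2
  calc |c b + s' b - 2 * C|
      = |(c b - C) + (s' b - C)| := by ring_nf
    _ ≤ |c b - C| + |s' b - C| := abs_add_le _ _
    _ ≤ _ := by linarith

end Pool.Agent.W795.Floq
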