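import Pool.Agent.W795.FloqPath

/-! The abstract mechanism, conclusion. -/

set_option autoImplicit false

namespace Pool.Agent.W795.Floq

open Filter Topology Matrix

section Main

variable {T : ℂ → Matrix (Fin 4) (Fin 4) ℂ} {A : ℂ → Matrix (Fin 2) (Fin 2) ℂ} {k0 k1 : ℂ}

lemma mulVec_hasDeriv {n : ℕ} {A : ℂ → Matrix (Fin n) (Fin n) ℂ} {a : ℂ → (Fin n → ℂ)}
    {a' : Fin n → ℂ}
    (hA : ∀ i j, DifferentiableAt ℂ (fun m => A m i j) 0) (ha : HasDerivAt a a' 0) :
    HasDerivAt (fun m => A m *ᵥ a m)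
      ((Matrix.of fun i j => deriv (fun m => A m i j) 0) *ᵥ a 0 + A 0 *ᵥ a') 0 := by
  rw [hasDerivAt_pi]
  intro i
  have h : ∀ j, HasDerivAt (fun m => A m i j * a m j)
      (deriv (fun m => A m i j) 0 * a 0 j + A 0 i j * a' j) 0 := fun j =>
    (hA i j).hasDerivAt.mul ((hasDerivAt_pi.1 ha) j)
  have h2 := HasDerivAt.fun_sum (u := Finset.univ) (fun j _ => h j)
  refine h2.congr_deriv ?_
  simp [Matrix.mulVec, dotProduct, Finset.sum_add_distrib]

lemma mulVec_cont {n : ℕ} {T : ℂ → Matrix (Fin n) (Fin n) ℂ} {F : Filter ℂ}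
    {T0 : Matrix (Fin n) (Fin n) ℂ}
    (hT : ∀ i j, Tendsto (fun l => T l i j) F (𝓝 (T0 i j))) (v : Fin n → ℂ) :
    Tendsto (fun l => T l *ᵥ v) F (𝓝 (T0 *ᵥ v)) := by
  rw [tendsto_pi_nhds]
  intro i
  simp only [Matrix.mulVec, dotProduct]
  exact tendsto_finsetSum _ (fun j _ => (hT i j).mul_const _)

/-- The value at `0`. -/
lemma rel_zero
    (hT : ∀ i j, ContinuousAt (fun l => T l i j) 0)
    (hA : ∀ i j, DifferentiableAt ℂ (fun m => A m i j) 0)
    (hrel : ∀ m a, T (m ^ 2) *ᵥ Psi k0 k1 (a, m • a) = Psi k0 k1 (A m *ᵥ a, m • (A m *ᵥ a)))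
    (x y : Fin 2 → ℂ) :
    T 0 *ᵥ Psi k0 k1 (x, y) = Psi k0 k1 (A 0 *ᵥ x
      + (Matrix.of fun i j => deriv (fun m => A m i j) 0) *ᵥ y, A 0 *ᵥ y) := by
  have h1 : T 0 *ᵥ Psi k0 k1 (x, 0) = Psi k0 k1 (A 0 *ᵥ x, 0) := by
    have := hrel 0 x
    simpa using this
  have h2 : T 0 *ᵥ Psi k0 k1 (0, y) = Psi k0 k1
      ((Matrix.of fun i j => deriv (fun m => A m i j) 0) *ᵥ y, A 0 *ᵥ y) := by
    have hy : HasDerivAt (fun m => A m *ᵥ y)
        ((Matrix.of fun i j => deriv (fun m => A m i j) 0) *ᵥ y) 0 := by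
      have := mulVec_hasDeriv hA (hasDerivAt_const (0:ℂ) y)
      simpa using this
    have e1 := tendsto_odd hy
    have e2 := tendsto_even hy.continuousAt
    have e3 : Tendsto (fun m => Psi k0 k1 ((2 * m)⁻¹ • (A m *ᵥ y - A (-m) *ᵥ y),
        (1 / 2 : ℂ) • (A m *ᵥ y + A (-m) *ᵥ y))) (𝓝[≠] 0) (𝓝 (Psi k0 k1
      ((Matrix.of fun i j => deriv (fun m => A m i j) 0) *ᵥ y, A 0 *ᵥ y))) :=
      ((Psi_cont k0 k1).tendsto _).comp (e1.prodMk_nhds e2)
    have e4 : Tendsto (fun m : ℂ => T (m ^ 2) *ᵥ Psi k0 k1 (0, y)) (𝓝[≠] 0)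
        (𝓝 (T 0 *ᵥ Psi k0 k1 (0, y))) := by
      apply mulVec_cont
      intro i j
      have h5 : Tendsto (fun m : ℂ => m ^ 2) (𝓝[≠] 0) (𝓝 0) := by
        have : Tendsto (fun m : ℂ => m ^ 2) (𝓝 0) (𝓝 ((0:ℂ) ^ 2)) := (continuous_pow 2).tendsto 0
        rw [zero_pow two_ne_zero] at this
        exact this.mono_left nhdsWithin_le_nhds
      exact (hT i j).tendsto.comp h5
    refine tendsto_nhds_unique e4 (e3.congr' ?_)
    filter_upwards [self_mem_nhdsWithin] with m hm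
    have hm' : m ≠ 0 := hm
    have h6 := rel_decomp hrel m ((2 * m)⁻¹ • y) (-((2 * m)⁻¹ • y))
    have h7 : m • ((2 * m)⁻¹ • y) - m • (-((2 * m)⁻¹ • y)) = y := by
      rw [smul_neg, sub_neg_eq_add, smul_smul, ← add_smul]
      have : m * (2 * m)⁻¹ + m * (2 * m)⁻¹ = 1 := by field_simp; norm_num
      rw [this, one_smul]
    rw [h7, add_neg_cancel] at h6
    rw [h6]
    congr 1
    refine Prod.ext ?_ ?_
    · show (2 * m)⁻¹ • (A m *ᵥ y - A (-m) *ᵥ y)
        = A m *ᵥ (2 * m)⁻¹ • y + A (-m) *ᵥ (-((2 * m)⁻¹ • y))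
      rw [Matrix.mulVec_neg, Matrix.mulVec_smul, Matrix.mulVec_smul, smul_sub, sub_eq_add_neg]
    · show (1 / 2 : ℂ) • (A m *ᵥ y + A (-m) *ᵥ y)
        = m • (A m *ᵥ (2 * m)⁻¹ • y) - m • (A (-m) *ᵥ (-((2 * m)⁻¹ • y)))
      rw [Matrix.mulVec_neg, Matrix.mulVec_smul, Matrix.mulVec_smul, smul_neg, sub_neg_eq_add,
        smul_smul, smul_smul, ← smul_add]
      congr 1
      field_simp
  have e0 : Psi k0 k1 (x, y) = Psi k0 k1 (x, 0) + Psi k0 k1 (0, y) := by
    rw [← map_add]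
    congr 1
    simp
  rw [e0, Matrix.mulVec_add, h1, h2, ← map_add]
  congr 1
  simp

/-- The mechanism for a first kind pathology. -/
theorem pathology
    (hT : ∀ i j, ContinuousAt (fun l => T l i j) 0)
    (hA : ∀ i j, AnalyticAt ℂ (fun m => A m i j) 0)
    (hdet : ∀ m, (A m).det = 1)
    (hrel : ∀ m a, T (m ^ 2) *ᵥ Psi k0 k1 (a, m • a) = Psi k0 k1 (A m *ᵥ a, m • (A m *ᵥ a)))
    (hd : deriv (fun m => (A m).trace) 0 = 0)
    (h4 : (A 0).trace ^ 2 ≠ 4)
    (hne : ∀ᶠ m in 𝓝[≠] (0:ℂ), (A m).trace ≠ (A (-m)).trace) :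
    HasFirstKindPathology T 0 := by
  have hAd : ∀ i j, DifferentiableAt ℂ (fun m => A m i j) 0 := fun i j =>
    (hA i j).differentiableAt
  have hΔ : AnalyticAt ℂ (fun m => (A m).trace) 0 := by
    have : (fun m => (A m).trace) = fun m => A m 0 0 + A m 1 1 := by
      funext m; rw [trace_fin_two]
    rw [this]
    exact (hA 0 0).add (hA 1 1)
  obtain ⟨ρ, hρan, hρ⟩ := exists_branch hΔ h4
  have hρ' : deriv ρ 0 = 0 := branch_deriv hΔ h4 hρan hρ hd
  have h4' : ∀ᶠ m in 𝓝 (0:ℂ), (A m).trace ^ 2 ≠ 4 :=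
    (hΔ.continuousAt.pow 2).eventually_ne h4
  have hρ0 : ∀ {m : ℂ}, ρ m ^ 2 - (A m).trace * ρ m + 1 = 0 → ρ m ≠ 0 := by
    intro m h h0
    rw [h0] at h
    simp at h
  have hρ1 : ∀ {m : ℂ}, ρ m ^ 2 - (A m).trace * ρ m + 1 = 0 → (A m).trace ^ 2 ≠ 4 →
      ρ m ^ 2 ≠ 1 := by
    intro m h h4 h1
    apply h4
    have hr0 := hρ0 h
    have e1 : (A m).trace * ρ m = 2 := by linear_combination h1 - h
    have e2 : ((A m).trace * ρ m) ^ 2 = 4 := by rw [e1]; norm_num
    rw [mul_pow, h1, mul_one] at e2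
    exact e2
  have hρz := hρ.self_of_nhds
  have htr0 : (A 0).trace = ρ 0 + (ρ 0)⁻¹ := by
    have := hρ0 hρz
    field_simp
    linear_combination -hρz
  obtain ⟨e, he⟩ := exists_e htr0 (hρ0 hρz) (hρ1 hρz h4)
  -- the eigenvector
  set a : ℂ → (Fin 2 → ℂ) := fun m => A m *ᵥ e - (ρ m)⁻¹ • e with ha
  have hρd : HasDerivAt ρ 0 0 := by
    have := hρan.differentiableAt.hasDerivAt
    rwa [hρ'] at this
  obtain ⟨a', ha'⟩ : ∃ a', HasDerivAt a a' 0 := by
    have e1 := mulVec_hasDeriv hAd (hasDerivAt_const (0:ℂ) e)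
    have e2 : HasDerivAt (fun m => (ρ m)⁻¹ • e) ((-0 / ρ 0 ^ 2) • e) 0 :=
      (hρd.inv (hρ0 hρz)).smul_const e
    exact ⟨_, e1.sub e2⟩
  have ha0 : a 0 ≠ 0 := he
  have haev : ∀ᶠ m in 𝓝 (0:ℂ), a m ≠ 0 := ha'.continuousAt.eventually_ne ha0
  have haeig : ∀ {m : ℂ}, ρ m ^ 2 - (A m).trace * ρ m + 1 = 0 → A m *ᵥ a m = ρ m • a m :=
    fun h => eig_vec (hdet _) h (hρ0 h) e
  -- good points
  set P : ℂ → Prop := fun m => m ≠ 0 ∧ ρ m ^ 2 - (A m).trace * ρ m + 1 = 0 ∧
    (A m).trace ^ 2 ≠ 4 ∧ (A m).trace ≠ (A (-m)).trace ∧ a m ≠ 0 with hP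
  have hPev : ∀ᶠ m in 𝓝[≠] (0:ℂ), P m := by
    filter_upwards [self_mem_nhdsWithin, nhdsWithin_le_nhds hρ, nhdsWithin_le_nhds h4', hne,
      nhdsWithin_le_nhds haev] with m h1 h2 h3 h4 h5
    exact ⟨h1, h2, h3, h4, h5⟩
  have hPev2 : ∀ᶠ m in 𝓝[≠] (0:ℂ), P m ∧ P (-m) := hPev.and (eventually_neg hPev)
  obtain ⟨sq, hsq, hsqt⟩ := exists_sqrt
  have hgood : ∀ᶠ l in 𝓝[≠] (0:ℂ), P (sq l) ∧ P (-(sq l)) := hsqt.eventually hPev2
  -- eigenspaces
  have hsheet : ∀ m, P m → eigSpace (T (m ^ 2)) (ρ m)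
      = Submodule.span ℂ {Psi k0 k1 (a m, m • a m)} := by
    intro m ⟨h1, h2, h3, h4, h5⟩
    exact eig_sheet hdet hrel h1 h2 (hρ1 h2 h3) h4 h5
  -- even and odd parts
  set ao : ℂ → (Fin 2 → ℂ) := fun m => (2 * m)⁻¹ • (a m - a (-m)) with hao
  set ae : ℂ → (Fin 2 → ℂ) := fun m => (1 / 2 : ℂ) • (a m + a (-m)) with hae
  have haot : Tendsto ao (𝓝[≠] 0) (𝓝 a') := tendsto_odd ha'
  have haet : Tendsto ae (𝓝[≠] 0) (𝓝 (a 0)) := tendsto_even ha'.continuousAt
  set w : ℂ → Fin 2 → (Fin 4 → ℂ) := fun l =>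
    ![Psi k0 k1 (ae (sq l), sq l ^ 2 • ao (sq l)), Psi k0 k1 (ao (sq l), ae (sq l))] with hw
  set w0 : Fin 2 → (Fin 4 → ℂ) := ![Psi k0 k1 (a 0, 0), Psi k0 k1 (a', a 0)] with hw0
  have hli0 : LinearIndependent ℂ w0 := by
    rw [hw0, LinearIndependent.pair_iff]
    intro s t hst
    rw [← map_smul, ← map_smul, ← map_add] at hst
    have h1 : (s • ((a 0, 0) : (Fin 2 → ℂ) × (Fin 2 → ℂ)) + t • (a', a 0)) = 0 :=
      (Psi k0 k1).injective (by rw [hst, map_zero])
    have h2 := congrArg Prod.snd h1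
    have h3 := congrArg Prod.fst h1
    simp only [Prod.snd_add, Prod.smul_snd, smul_zero, zero_add, Prod.snd_zero] at h2
    simp only [Prod.fst_add, Prod.smul_fst, Prod.fst_zero] at h3
    have ht : t = 0 := (smul_eq_zero.1 h2).resolve_right ha0
    rw [ht, zero_smul, add_zero] at h3
    exact ⟨(smul_eq_zero.1 h3).resolve_right ha0, ht⟩
  have hwt : ∀ i, Tendsto (fun l => w l i) (𝓝[≠] 0) (𝓝 (w0 i)) := by
    intro i
    fin_cases i
    · show Tendsto (fun l => Psi k0 k1 (ae (sq l), sq l ^ 2 • ao (sq l))) (𝓝[≠] 0)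
        (𝓝 (Psi k0 k1 (a 0, 0)))
      have e1 := haet.comp hsqt
      have e2 : Tendsto (fun l => sq l ^ 2 • ao (sq l)) (𝓝[≠] 0) (𝓝 ((0:ℂ) • a')) := by
        have e3 : Tendsto (fun l => sq l ^ 2) (𝓝[≠] 0) (𝓝 (0:ℂ)) := by
          have : (fun l => sq l ^ 2) = fun l => l := funext hsq
          rw [this]
          exact tendsto_id.mono_left nhdsWithin_le_nhds
        exact e3.smul (haot.comp hsqt)
      rw [zero_smul] at e2
      exact ((Psi_cont k0 k1).tendsto _).comp (e1.prodMk_nhds e2)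
    · show Tendsto (fun l => Psi k0 k1 (ao (sq l), ae (sq l))) (𝓝[≠] 0)
        (𝓝 (Psi k0 k1 (a', a 0)))
      exact ((Psi_cont k0 k1).tendsto _).comp ((haot.comp hsqt).prodMk_nhds (haet.comp hsqt))
  have hwli : ∀ᶠ l in 𝓝[≠] (0:ℂ), LinearIndependent ℂ (w l) := by
    have h1 : Tendsto w (𝓝[≠] 0) (𝓝 w0) := tendsto_pi_nhds.2 hwt
    exact h1.eventually (isOpen_setOfPred_linearIndependent.mem_nhds hli0)
  -- the span for good l
  have hspan : ∀ l, l ≠ 0 → P (sq l) → P (-(sq l)) →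
      Submodule.span ℂ (Set.range (w l)) = sheetSpan T 0 2 ρ l := by
    intro l hl h1 h2
    set m := sq l with hm
    have hml : m ^ 2 = l := hsq l
    have hm0 : m ≠ 0 := h1.1
    have e1 : sheetSpan T 0 2 ρ l = eigSpace (T (m ^ 2)) (ρ m) ⊔ eigSpace (T ((-m) ^ 2)) (ρ (-m)) := by
      unfold sheetSpan
      apply le_antisymm
      · refine iSup₂_le fun t ht => ?_
        rw [zero_add, ← hml] at ht
        rw [hml, neg_sq, hml]
        rcases sq_eq_sq_iff_eq_or_eq_neg.1 ht with h | h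
        · rw [h]; exact le_sup_left
        · rw [h]; exact le_sup_right
      · refine sup_le ?_ ?_
        · rw [hml]
          exact le_iSup₂_of_le m (by rw [zero_add, hml]) le_rfl
        · rw [neg_sq, hml]
          exact le_iSup₂_of_le (-m) (by rw [zero_add, neg_sq, hml]) le_rfl
    rw [e1, hsheet m h1, hsheet (-m) h2]
    have ev1 : Psi k0 k1 (a m, m • a m) = w l 0 + m • w l 1 := by
      show _ = Psi k0 k1 (ae m, m ^ 2 • ao m) + m • Psi k0 k1 (ao m, ae m)
      rw [← map_smul, ← map_add]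
      congr 1
      refine Prod.ext ?_ ?_
      · show a m = (1 / 2 : ℂ) • (a m + a (-m)) + m • (2 * m)⁻¹ • (a m - a (-m))
        rw [smul_smul]
        have : m * (2 * m)⁻¹ = 1 / 2 := by field_simp
        rw [this]; module
      · show m • a m = m ^ 2 • (2 * m)⁻¹ • (a m - a (-m)) + m • (1 / 2 : ℂ) • (a m + a (-m))
        rw [smul_smul]
        have : m ^ 2 * (2 * m)⁻¹ = m * (1 / 2) := by field_simp
        rw [this]; module
    have ev2 : Psi k0 k1 (a (-m), (-m) • a (-m)) = w l 0 - m • w l 1 := by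
      show _ = Psi k0 k1 (ae m, m ^ 2 • ao m) - m • Psi k0 k1 (ao m, ae m)
      rw [← map_smul, ← map_sub]
      congr 1
      refine Prod.ext ?_ ?_
      · show a (-m) = (1 / 2 : ℂ) • (a m + a (-m)) - m • (2 * m)⁻¹ • (a m - a (-m))
        rw [smul_smul]
        have : m * (2 * m)⁻¹ = 1 / 2 := by field_simp
        rw [this]; module
      · show (-m) • a (-m) = m ^ 2 • (2 * m)⁻¹ • (a m - a (-m)) - m • (1 / 2 : ℂ) • (a m + a (-m))
        rw [smul_smul]
        have : m ^ 2 * (2 * m)⁻¹ = m * (1 / 2) := by field_simp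
        rw [this]; module
    rw [ev1, ev2]
    apply le_antisymm
    · rw [Submodule.span_le]
      rintro _ ⟨i, rfl⟩
      have k1' : w l 0 + m • w l 1 ∈ Submodule.span ℂ {w l 0 + m • w l 1}
          ⊔ Submodule.span ℂ {w l 0 - m • w l 1} :=
        Submodule.mem_sup_left (Submodule.mem_span_singleton_self _)
      have k2' : w l 0 - m • w l 1 ∈ Submodule.span ℂ {w l 0 + m • w l 1}
          ⊔ Submodule.span ℂ {w l 0 - m • w l 1} :=
        Submodule.mem_sup_right (Submodule.mem_span_singleton_self _)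
      fin_cases i
      · have := Submodule.smul_mem _ (1 / 2 : ℂ) (Submodule.add_mem _ k1' k2')
        have e : (1 / 2 : ℂ) • ((w l 0 + m • w l 1) + (w l 0 - m • w l 1)) = w l 0 := by module
        rw [e] at this
        exact this
      · have := Submodule.smul_mem _ ((2 * m)⁻¹) (Submodule.sub_mem _ k1' k2')
        have e : (2 * m)⁻¹ • ((w l 0 + m • w l 1) - (w l 0 - m • w l 1)) = w l 1 := by
          have : (w l 0 + m • w l 1) - (w l 0 - m • w l 1) = (2 * m) • w l 1 := by module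
          rw [this, smul_smul, inv_mul_cancel₀ (mul_ne_zero two_ne_zero hm0), one_smul]
        rw [e] at this
        exact this
    · have k1' : w l 0 ∈ Submodule.span ℂ (Set.range (w l)) :=
        Submodule.subset_span ⟨0, rfl⟩
      have k2' : w l 1 ∈ Submodule.span ℂ (Set.range (w l)) :=
        Submodule.subset_span ⟨1, rfl⟩
      refine sup_le ?_ ?_
      · rw [Submodule.span_singleton_le_iff_mem]
        exact Submodule.add_mem _ k1' (Submodule.smul_mem _ _ k2')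
      · rw [Submodule.span_singleton_le_iff_mem]
        exact Submodule.sub_mem _ k1' (Submodule.smul_mem _ _ k2')
  -- the eigenspace at zero
  have hlim : Submodule.span ℂ (Set.range w0) = eigSpace (T 0) (ρ 0) := by
    have hAa0 : A 0 *ᵥ a 0 = ρ 0 • a 0 := haeig hρz
    have hder : (Matrix.of fun i j => deriv (fun m => A m i j) 0) *ᵥ a 0 + A 0 *ᵥ a'
        = ρ 0 • a' := by
      have e1 := mulVec_hasDeriv hAd ha'
      have e2 : HasDerivAt (fun m => ρ m • a m) (ρ 0 • a' + (0:ℂ) • a 0) 0 := hρd.smul ha'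
      have e3 : (fun m => A m *ᵥ a m) =ᶠ[𝓝 0] fun m => ρ m • a m := by
        filter_upwards [hρ] with m hm
        exact haeig hm
      have := (e2.congr_of_eventuallyEq e3).unique e1
      rw [zero_smul, add_zero] at this
      exact this.symm
    apply le_antisymm
    · rw [Submodule.span_le]
      rintro _ ⟨i, rfl⟩
      fin_cases i
      · show Psi k0 k1 (a 0, 0) ∈ eigSpace (T 0) (ρ 0)
        rw [mem_eigSpace, rel_zero hT hAd hrel, ← map_smul]
        congr 1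
        refine Prod.ext ?_ ?_
        · simp [hAa0]
        · simp
      · show Psi k0 k1 (a', a 0) ∈ eigSpace (T 0) (ρ 0)
        rw [mem_eigSpace, rel_zero hT hAd hrel, ← map_smul]
        congr 1
        refine Prod.ext ?_ ?_
        · show A 0 *ᵥ a' + _ = ρ 0 • a'
          rw [add_comm, hder]
        · exact hAa0
    · intro v hv
      rw [mem_eigSpace] at hv
      obtain ⟨⟨x, y⟩, rfl⟩ := (Psi k0 k1).surjective v
      rw [rel_zero hT hAd hrel, ← map_smul] at hv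
      have h1 := (Psi k0 k1).injective hv
      rw [Prod.smul_mk, Prod.mk.injEq] at h1
      obtain ⟨h1, h2⟩ := h1
      obtain ⟨c, hc⟩ := eig_line (hdet 0) hρz (hρ0 hρz) (hρ1 hρz h4) he h2
      have hc' : y = c • a 0 := hc
      have h3 : A 0 *ᵥ (x - c • a') = ρ 0 • (x - c • a') := by
        rw [hc', Matrix.mulVec_smul] at h1
        have h5 : (Matrix.of fun i j => deriv (fun m => A m i j) 0) *ᵥ a 0
            = ρ 0 • a' - A 0 *ᵥ a' := by rw [← hder]; abel
        rw [h5] at h1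
        rw [Matrix.mulVec_sub, Matrix.mulVec_smul]
        have h6 : A 0 *ᵥ x = ρ 0 • x - c • (ρ 0 • a' - A 0 *ᵥ a') := by rw [← h1]; abel
        rw [h6]
        module
      obtain ⟨c', hc2⟩ := eig_line (hdet 0) hρz (hρ0 hρz) (hρ1 hρz h4) he h3
      have hc2' : x - c • a' = c' • a 0 := hc2
      have hx : x = c' • a 0 + c • a' := by rw [← hc2']; abel
      have : Psi k0 k1 (x, y) = c' • w0 0 + c • w0 1 := by
        show _ = c' • Psi k0 k1 (a 0, 0) + c • Psi k0 k1 (a', a 0)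
        rw [← map_smul, ← map_smul, ← map_add, hx, hc']
        congr 1
        simp
      rw [this]
      exact Submodule.add_mem _ (Submodule.smul_mem _ _ (Submodule.subset_span ⟨0, rfl⟩))
        (Submodule.smul_mem _ _ (Submodule.subset_span ⟨1, rfl⟩))
  -- eigenvalues of T (m^2)
  have hroot : ∀ (m r : ℂ), r ^ 2 - (A m).trace * r + 1 = 0 → (T (m ^ 2)).charpoly.IsRoot r := by
    intro m r hr
    have hdet0 : (A m - r • (1 : Matrix (Fin 2) (Fin 2) ℂ)).det = 0 := by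
      have h1 := hdet m
      rw [det_fin_two] at h1 ⊢
      rw [trace_fin_two] at hr
      simp
      linear_combination hr + h1
    obtain ⟨v, hv0, hv⟩ := Matrix.exists_mulVec_eq_zero_iff.2 hdet0
    rw [Matrix.sub_mulVec, Matrix.smul_mulVec, Matrix.one_mulVec, sub_eq_zero] at hv
    refine isRoot_of_eig (v := Psi k0 k1 (v, m • v)) ?_ ?_
    · rw [hrel, hv, ← map_smul]
      congr 1
      refine Prod.ext rfl ?_
      show m • r • v = r • m • v
      rw [smul_comm]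
    · intro h
      apply hv0
      have := (Psi k0 k1).injective (h.trans (map_zero _).symm)
      exact congrArg Prod.fst this
  refine ⟨?_, 2, ρ, by norm_num, ⟨hρan, ?_, ?_⟩, ⟨2, w, w0, hli0, hlim, ?_, hwt⟩, ?_⟩
  · -- simple spectrum
    filter_upwards [hgood] with l hl
    obtain ⟨⟨h1, h2, h3, h4, h5⟩, ⟨g1, g2, g3, g4, g5⟩⟩ := hl
    set m := sq l with hm
    have hml : m ^ 2 = l := hsq l
    have hinv : ∀ r t : ℂ, r ≠ 0 → r ^ 2 - t * r + 1 = 0 → (r⁻¹) ^ 2 - t * r⁻¹ + 1 = 0 := by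
      intro r t hr h
      field_simp
      linear_combination h
    have r1 := hρ0 h2
    have r2 := hρ0 g2
    have q1 := hroot m (ρ m) h2
    have q2 := hroot m (ρ m)⁻¹ (hinv _ _ r1 h2)
    have q3 := hroot (-m) (ρ (-m)) g2
    have q4 := hroot (-m) (ρ (-m))⁻¹ (hinv _ _ r2 g2)
    rw [neg_sq] at q3 q4
    rw [hml] at q1 q2 q3 q4
    have hdiff : ∀ r : ℂ, r ≠ 0 → r ^ 2 - (A m).trace * r + 1 = 0 →
        r ^ 2 - (A (-m)).trace * r + 1 = 0 → False := by
      intro r hr e1 e2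
      apply h4
      have : ((A m).trace - (A (-m)).trace) * r = 0 := by linear_combination e2 - e1
      exact sub_eq_zero.1 ((mul_eq_zero.1 this).resolve_right hr)
    have n1 : ρ m ≠ (ρ m)⁻¹ := by
      intro h
      apply hρ1 h2 h3
      have := mul_inv_cancel₀ r1
      rw [← h] at this
      rw [pow_two]; exact this
    have n2 : ρ (-m) ≠ (ρ (-m))⁻¹ := by
      intro h
      apply hρ1 g2 g3
      have := mul_inv_cancel₀ r2
      rw [← h] at this
      rw [pow_two]; exact this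
    have n3 : ρ m ≠ ρ (-m) := fun h => hdiff _ r1 h2 (h ▸ g2)
    have n4 : ρ m ≠ (ρ (-m))⁻¹ := fun h => hdiff _ r1 h2 (h ▸ hinv _ _ r2 g2)
    have n5 : (ρ m)⁻¹ ≠ ρ (-m) := fun h => hdiff _ (inv_ne_zero r1) (hinv _ _ r1 h2) (h ▸ g2)
    have n6 : (ρ m)⁻¹ ≠ (ρ (-m))⁻¹ := fun h => n3 (inv_injective h)
    have hch : (T l).charpoly ≠ 0 := (Matrix.charpoly_monic _).ne_zero
    rw [← Multiset.toFinset_card_eq_card_iff_nodup]
    apply le_antisymm (Multiset.toFinset_card_le _)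
    have c1 : Multiset.card (T l).charpoly.roots ≤ 4 := by
      have := Polynomial.card_roots' (T l).charpoly
      rwa [Matrix.charpoly_natDegree_eq_dim, Fintype.card_fin] at this
    refine c1.trans ?_
    have c2 : ({ρ m, (ρ m)⁻¹, ρ (-m), (ρ (-m))⁻¹} : Finset ℂ) ⊆ (T l).charpoly.roots.toFinset := by
      intro r hr
      rw [Multiset.mem_toFinset, Polynomial.mem_roots hch]
      simp only [Finset.mem_insert, Finset.mem_singleton] at hr
      rcases hr with rfl | rfl | rfl | rfl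
      · exact q1
      · exact q2
      · exact q3
      · exact q4
    have c3 : ({ρ m, (ρ m)⁻¹, ρ (-m), (ρ (-m))⁻¹} : Finset ℂ).card = 4 := by
      rw [Finset.card_insert_of_notMem, Finset.card_insert_of_notMem,
        Finset.card_insert_of_notMem, Finset.card_singleton]
      · simpa using n2
      · simp only [Finset.mem_insert, Finset.mem_singleton, not_or]
        exact ⟨n5, n6⟩
      · simp only [Finset.mem_insert, Finset.mem_singleton, not_or]
        exact ⟨n1, n3, n4⟩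
    exact c3.symm.le.trans (Finset.card_le_card c2)
  · filter_upwards [hρ] with t ht
    rw [zero_add]
    exact hroot t _ ht
  · filter_upwards [hPev2] with t ht s hs hst h
    obtain ⟨⟨h1, h2, h3, h4, h5⟩, ⟨g1, g2, g3, g4, g5⟩⟩ := ht
    rcases sq_eq_sq_iff_eq_or_eq_neg.1 hs with hs' | hs'
    · exact hst hs'
    · rw [hs'] at h
      apply h4
      have : ((A t).trace - (A (-t)).trace) * ρ t = 0 := by
        rw [h] at g2
        linear_combination g2 - h2
      exact sub_eq_zero.1 ((mul_eq_zero.1 this).resolve_right (hρ0 h2))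
  · filter_upwards [hgood, hwli, self_mem_nhdsWithin] with l hl hli hl0
    exact ⟨hli, hspan l hl0 hl.1 hl.2⟩
  · rw [← hlim, finrank_span_eq_card hli0, Fintype.card_fin]
    norm_num

end Main

end Pool.Agent.W795.Floq
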