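import Pool.Agent.W795.Ode
import Pool.Agent.W795.FloqDefs

/-! Linear systems with a spectral parameter and the Floquet matrix of a fourth order operator. -/

set_option autoImplicit false

namespace Pool.Agent.W795.Floq

open Filter Topology Matrix

/-- the linear system `Y' = C x Y + l C1 Y` -/
def IsSys {n : ℕ} (C : ℝ → Matrix (Fin n) (Fin n) ℂ) (C1 : Matrix (Fin n) (Fin n) ℂ) (l : ℂ)
    (Y : ℝ → (Fin n → ℂ)) : Prop :=
  ∀ x, HasDerivAt Y (C x *ᵥ Y x + l • (C1 *ᵥ Y x)) x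

/-- matrices as continuous linear maps, linearly -/
noncomputable def matL (n : ℕ) :
    Matrix (Fin n) (Fin n) ℂ →ₗ[ℂ] ((Fin n → ℂ) →L[ℂ] (Fin n → ℂ)) :=
  (LinearMap.toContinuousLinearMap (𝕜 := ℂ) (E := Fin n → ℂ) (F' := Fin n → ℂ)).toLinearMap ∘ₗ
    (Matrix.toLin' (R := ℂ) (m := Fin n) (n := Fin n)).toLinearMap

lemma matL_apply {n : ℕ} (C : Matrix (Fin n) (Fin n) ℂ) (v : Fin n → ℂ) :
    matL n C v = C *ᵥ v := rfl

lemma matL_cont (n : ℕ) : Continuous (matL n) := (matL n).continuous_of_finiteDimensional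

theorem exists_sys {n : ℕ} {C : ℝ → Matrix (Fin n) (Fin n) ℂ} (hC : Continuous C)
    (C1 : Matrix (Fin n) (Fin n) ℂ) (y0 : Fin n → ℂ) :
    ∃ Y : ℂ → ℝ → (Fin n → ℂ), (∀ l, Y l 0 = y0) ∧ (∀ l, IsSys C C1 l (Y l)) ∧
      ∀ x, Differentiable ℂ (fun l => Y l x) := by
  obtain ⟨Y, h1, h2, h3⟩ := exists_entire (B0 := fun x => matL n (C x))
    ((matL_cont n).comp hC) (matL n C1) y0
  exact ⟨Y, h1, fun l x => h2 l x, h3⟩

theorem sys_unique {n : ℕ} {C : ℝ → Matrix (Fin n) (Fin n) ℂ} (hC : Continuous C)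
    {C1 : Matrix (Fin n) (Fin n) ℂ} {l : ℂ} {Y Z : ℝ → (Fin n → ℂ)}
    (hY : IsSys C C1 l Y) (hZ : IsSys C C1 l Z) (h0 : Y 0 = Z 0) : Y = Z := by
  have h1 : Continuous fun x => matL n (C x) + l • matL n C1 := by
    have := (matL_cont n).comp hC
    fun_prop
  have h2 : Continuous fun x => (matL n (C x) + l • matL n C1).restrictScalars ℝ :=
    (ContinuousLinearMap.restrictScalarsL ℂ (Fin n → ℂ) (Fin n → ℂ) ℝ ℝ).continuous.comp h1
  exact linear_unique h2 (fun x => hY x) (fun x => hZ x) h0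

lemma IsSys.add {n : ℕ} {C : ℝ → Matrix (Fin n) (Fin n) ℂ} {C1 : Matrix (Fin n) (Fin n) ℂ} {l : ℂ}
    {Y Z : ℝ → (Fin n → ℂ)} (hY : IsSys C C1 l Y) (hZ : IsSys C C1 l Z) :
    IsSys C C1 l (fun x => Y x + Z x) := by
  intro x
  refine ((hY x).add (hZ x)).congr_deriv ?_
  rw [Matrix.mulVec_add, Matrix.mulVec_add, smul_add]
  abel

lemma IsSys.smul {n : ℕ} {C : ℝ → Matrix (Fin n) (Fin n) ℂ} {C1 : Matrix (Fin n) (Fin n) ℂ} {l : ℂ}
    {Y : ℝ → (Fin n → ℂ)} (hY : IsSys C C1 l Y) (c : ℂ) :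
    IsSys C C1 l (fun x => c • Y x) := by
  intro x
  refine ((hY x).const_smul c).congr_deriv ?_
  rw [Matrix.mulVec_smul, Matrix.mulVec_smul, smul_add, smul_comm c l]

lemma IsSys.sum {n : ℕ} {C : ℝ → Matrix (Fin n) (Fin n) ℂ} {C1 : Matrix (Fin n) (Fin n) ℂ} {l : ℂ}
    {ι : Type*} (s : Finset ι) {Y : ι → ℝ → (Fin n → ℂ)} (hY : ∀ i, IsSys C C1 l (Y i)) :
    IsSys C C1 l (fun x => ∑ i ∈ s, Y i x) := by
  intro x
  have := HasDerivAt.fun_sum (u := s) (fun i _ => hY i x)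
  refine this.congr_deriv ?_
  rw [Finset.sum_add_distrib, ← Finset.smul_sum, Matrix.mulVec_sum, Matrix.mulVec_sum]

lemma IsSys.shift {n : ℕ} {C : ℝ → Matrix (Fin n) (Fin n) ℂ} {C1 : Matrix (Fin n) (Fin n) ℂ} {l : ℂ}
    {Y : ℝ → (Fin n → ℂ)} (hY : IsSys C C1 l Y) {b : ℝ} (hb : ∀ x, C (x + b) = C x) :
    IsSys C C1 l (fun x => Y (x + b)) := by
  intro x
  have := (hY (x + b)).comp_add_const x b
  rw [hb] at this
  exact this

/-- The monodromy matrix: any solution satisfies `Y b = (monodromy) Y 0`. -/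
theorem exists_monodromy {n : ℕ} {C : ℝ → Matrix (Fin n) (Fin n) ℂ} (hC : Continuous C)
    (C1 : Matrix (Fin n) (Fin n) ℂ) :
    ∃ Y : Fin n → ℂ → ℝ → (Fin n → ℂ), (∀ j l, Y j l 0 = Pi.single j 1) ∧
      (∀ j l, IsSys C C1 l (Y j l)) ∧ (∀ j x, Differentiable ℂ (fun l => Y j l x)) ∧
      ∀ l Z, IsSys C C1 l Z → ∀ x, (Matrix.of fun i j => Y j l x i) *ᵥ Z 0 = Z x := by
  have h := fun j : Fin n => exists_sys hC C1 (Pi.single j (1:ℂ))
  choose Y h1 h2 h3 using h
  refine ⟨Y, h1, h2, h3, ?_⟩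
  intro l Z hZ x
  have h4 : (fun x => ∑ j ∈ Finset.univ, Z 0 j • Y j l x) = Z := by
    apply sys_unique hC (IsSys.sum _ (fun j => (h2 j l).smul (Z 0 j))) hZ
    ext i
    simp [h1, Finset.sum_apply, Pi.single_apply]
  have h5 := congrFun h4 x
  rw [← h5]
  ext i
  simp [Matrix.mulVec, dotProduct, Finset.sum_apply, mul_comm]

/-- the companion system of the fourth order equation -/
def comp4 (p : ℕ → ℝ → ℂ) (x : ℝ) : Matrix (Fin 4) (Fin 4) ℂ :=
  !![0, 1, 0, 0; 0, 0, 1, 0; 0, 0, 0, 1; -p 0 x, -p 1 x, -p 2 x, 0]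

/-- the spectral part -/
def spec4 : Matrix (Fin 4) (Fin 4) ℂ :=
  !![0, 0, 0, 0; 0, 0, 0, 0; 0, 0, 0, 0; 1, 0, 0, 0]

lemma comp4_cont {p : ℕ → ℝ → ℂ} (hp : ∀ k, Continuous (p k)) : Continuous (comp4 p) := by
  refine continuous_matrix fun i j => ?_
  fin_cases i <;> fin_cases j <;> simp [comp4] <;> first | exact continuous_const | exact (hp _).neg

lemma sys4_iff {p : ℕ → ℝ → ℂ} {l : ℂ} {Y : ℝ → (Fin 4 → ℂ)} :
    IsSys (comp4 p) spec4 l Y ↔ ∀ x,
      HasDerivAt (fun x => Y x 0) (Y x 1) x ∧ HasDerivAt (fun x => Y x 1) (Y x 2) x ∧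
      HasDerivAt (fun x => Y x 2) (Y x 3) x ∧
      HasDerivAt (fun x => Y x 3)
        (l * Y x 0 - p 0 x * Y x 0 - p 1 x * Y x 1 - p 2 x * Y x 2) x := by
  constructor
  · intro h x
    have h1 := hasDerivAt_pi.1 (h x)
    refine ⟨?_, ?_, ?_, ?_⟩
    · refine (h1 0).congr_deriv ?_
      simp [comp4, spec4, Matrix.mulVec, dotProduct, Fin.sum_univ_four]
    · refine (h1 1).congr_deriv ?_
      simp [comp4, spec4, Matrix.mulVec, dotProduct, Fin.sum_univ_four]
    · refine (h1 2).congr_deriv ?_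
      simp [comp4, spec4, Matrix.mulVec, dotProduct, Fin.sum_univ_four]
    · refine (h1 3).congr_deriv ?_
      simp [comp4, spec4, Matrix.mulVec, dotProduct, Fin.sum_univ_four]
      ring
  · intro h x
    obtain ⟨h0, h1, h2, h3⟩ := h x
    rw [hasDerivAt_pi]
    intro i
    fin_cases i
    · refine h0.congr_deriv ?_
      simp [comp4, spec4, Matrix.mulVec, dotProduct, Fin.sum_univ_four]
    · refine h1.congr_deriv ?_
      simp [comp4, spec4, Matrix.mulVec, dotProduct, Fin.sum_univ_four]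
    · refine h2.congr_deriv ?_
      simp [comp4, spec4, Matrix.mulVec, dotProduct, Fin.sum_univ_four]
    · refine h3.congr_deriv ?_
      simp [comp4, spec4, Matrix.mulVec, dotProduct, Fin.sum_univ_four]
      ring

lemma sys_of_sol {p : ℕ → ℝ → ℂ} {l : ℂ} {u : ℝ → ℂ} (hu : IsSolution 4 p l u) :
    IsSys (comp4 p) spec4 l (fun x => fun i : Fin 4 => iteratedDeriv i u x) := by
  rw [sys4_iff]
  intro x
  have hd : ∀ k : ℕ, k < 4 → HasDerivAt (iteratedDeriv k u) (iteratedDeriv (k + 1) u x) x := by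
    intro k hk
    have h1 : Differentiable ℝ (iteratedDeriv k u) :=
      hu.1.differentiable_iteratedDeriv k (by exact_mod_cast hk)
    rw [iteratedDeriv_succ]
    exact (h1 x).hasDerivAt
  refine ⟨hd 0 (by norm_num), hd 1 (by norm_num), hd 2 (by norm_num), ?_⟩
  refine (hd 3 (by norm_num)).congr_deriv ?_
  have h2 := hu.2 x
  simp [Finset.sum_range_succ] at h2
  show iteratedDeriv 4 u x = l * iteratedDeriv 0 u x - p 0 x * iteratedDeriv 0 u x
    - p 1 x * iteratedDeriv 1 u x - p 2 x * iteratedDeriv 2 u x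
  rw [iteratedDeriv_zero]
  simp only [iteratedDeriv_one]
  linear_combination h2

lemma sol_of_sys {p : ℕ → ℝ → ℂ} (hp : ∀ k, Continuous (p k)) {l : ℂ} {Y : ℝ → (Fin 4 → ℂ)}
    (hY : IsSys (comp4 p) spec4 l Y) :
    IsSolution 4 p l (fun x => Y x 0) ∧ ∀ (i : Fin 4) x, iteratedDeriv i (fun x => Y x 0) x = Y x i := by
  have hYc : Continuous Y := continuous_iff_continuousAt.2 fun x => (hY x).continuousAt
  rw [sys4_iff] at hY
  have e0 : iteratedDeriv 0 (fun x => Y x 0) = fun x => Y x 0 := iteratedDeriv_zero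
  have e1 : iteratedDeriv 1 (fun x => Y x 0) = fun x => Y x 1 := by
    rw [iteratedDeriv_succ, e0]; funext x; exact (hY x).1.deriv
  have e2 : iteratedDeriv 2 (fun x => Y x 0) = fun x => Y x 2 := by
    rw [iteratedDeriv_succ, e1]; funext x; exact (hY x).2.1.deriv
  have e3 : iteratedDeriv 3 (fun x => Y x 0) = fun x => Y x 3 := by
    rw [iteratedDeriv_succ, e2]; funext x; exact (hY x).2.2.1.deriv
  have e4 : iteratedDeriv 4 (fun x => Y x 0) = fun x =>
      l * Y x 0 - p 0 x * Y x 0 - p 1 x * Y x 1 - p 2 x * Y x 2 := by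
    rw [iteratedDeriv_succ, e3]; funext x; exact (hY x).2.2.2.deriv
  have hc : ∀ i, Continuous fun x => Y x i := fun i => (continuous_apply i).comp hYc
  refine ⟨⟨?_, ?_⟩, ?_⟩
  · rw [show ((4:ℕ) : WithTop ℕ∞) = (4:ℕ) from rfl, contDiff_nat_iff_iteratedDeriv]
    constructor
    · intro m hm
      interval_cases m
      · rw [e0]; exact hc 0
      · rw [e1]; exact hc 1
      · rw [e2]; exact hc 2
      · rw [e3]; exact hc 3
      · rw [e4]
        exact (((continuous_const.mul (hc 0)).sub ((hp 0).mul (hc 0))).sub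
          ((hp 1).mul (hc 1))).sub ((hp 2).mul (hc 2))
    · intro m hm
      interval_cases m
      · rw [e0]; exact fun x => (hY x).1.differentiableAt
      · rw [e1]; exact fun x => (hY x).2.1.differentiableAt
      · rw [e2]; exact fun x => (hY x).2.2.1.differentiableAt
      · rw [e3]; exact fun x => (hY x).2.2.2.differentiableAt
  · intro x
    simp only [Nat.add_one_sub_one, Finset.sum_range_succ, Finset.sum_range_zero, e0, e1, e2, e4]
    ring
  · intro i x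
    fin_cases i
    · exact congrFun e0 x
    · exact congrFun e1 x
    · exact congrFun e2 x
    · exact congrFun e3 x

end Pool.Agent.W795.Floq
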