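import Pool.Agent.W795.FloqAlg

/-! The abstract mechanism: a 4 × 4 matrix function built from a 2 × 2 one has a first kind
pathology. -/

set_option autoImplicit false

namespace Pool.Agent.W795.Floq

open Filter Topology Matrix

lemma mem_eigSpace {n : ℕ} {N : Matrix (Fin n) (Fin n) ℂ} {r : ℂ} {v : Fin n → ℂ} :
    v ∈ eigSpace N r ↔ N *ᵥ v = r • v := by
  unfold eigSpace
  rw [LinearMap.mem_ker, Matrix.toLin'_apply, Matrix.sub_mulVec, Matrix.smul_mulVec,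
    Matrix.one_mulVec, sub_eq_zero]

lemma isRoot_of_eig {n : ℕ} {N : Matrix (Fin n) (Fin n) ℂ} {r : ℂ} {v : Fin n → ℂ}
    (h : N *ᵥ v = r • v) (hv : v ≠ 0) : N.charpoly.IsRoot r := by
  rw [Polynomial.IsRoot, Matrix.eval_charpoly]
  apply Matrix.exists_mulVec_eq_zero_iff.1
  refine ⟨v, hv, ?_⟩
  rw [Matrix.sub_mulVec, h, Matrix.scalar_apply]
  ext i
  simp [Matrix.mulVec_diagonal]

/-- coordinates on the space of initial data -/
noncomputable def Psi (k0 k1 : ℂ) : ((Fin 2 → ℂ) × (Fin 2 → ℂ)) ≃ₗ[ℂ] (Fin 4 → ℂ) where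
  toFun z := ![z.1 0, z.1 1, z.2 0 - k0 * z.1 0, z.2 1 - k0 * z.1 1 - k1 * z.1 0]
  map_add' z z' := by
    ext i
    fin_cases i <;> simp <;> ring
  map_smul' c z := by
    ext i
    fin_cases i <;> simp <;> ring
  invFun v := (![v 0, v 1], ![v 2 + k0 * v 0, v 3 + k0 * v 1 + k1 * v 0])
  left_inv z := by
    refine Prod.ext ?_ ?_
    · ext i
      fin_cases i <;> simp
    · ext i
      fin_cases i
      · simp
      · simp
        ring
  right_inv v := by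
    ext i
    fin_cases i
    · simp
    · simp
    · simp
    · simp
      ring

lemma Psi_cont (k0 k1 : ℂ) : Continuous (Psi k0 k1) := by
  exact (Psi k0 k1).toLinearMap.continuous_of_finiteDimensional

lemma tendsto_odd {F : Type*} [NormedAddCommGroup F] [NormedSpace ℂ F] {f : ℂ → F} {f' : F}
    (h : HasDerivAt f f' 0) :
    Tendsto (fun m => (2 * m)⁻¹ • (f m - f (-m))) (𝓝[≠] 0) (𝓝 f') := by
  have h1 := h.tendsto_slope
  have h2 : Tendsto (fun m : ℂ => -m) (𝓝[≠] 0) (𝓝[≠] 0) := by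
    refine tendsto_nhdsWithin_iff.2 ⟨?_, ?_⟩
    · have : Tendsto (fun m : ℂ => -m) (𝓝 0) (𝓝 (-0)) := continuous_neg.tendsto 0
      rw [neg_zero] at this
      exact this.mono_left nhdsWithin_le_nhds
    · filter_upwards [self_mem_nhdsWithin] with m hm
      simpa using hm
  have h3 := h1.comp h2
  have h4 := (h1.add h3).const_smul (1 / 2 : ℂ)
  have h5 : (1 / 2 : ℂ) • (f' + f') = f' := by module
  rw [h5] at h4
  refine h4.congr' ?_
  filter_upwards [self_mem_nhdsWithin] with m hm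
  have hm' : m ≠ 0 := hm
  simp only [Function.comp_apply, slope_def_module, sub_zero, mul_inv, inv_neg]
  module

lemma tendsto_even {F : Type*} [NormedAddCommGroup F] [NormedSpace ℂ F] {f : ℂ → F}
    (h : ContinuousAt f 0) :
    Tendsto (fun m => (1 / 2 : ℂ) • (f m + f (-m))) (𝓝[≠] 0) (𝓝 (f 0)) := by
  have h2 : Tendsto (fun m : ℂ => -m) (𝓝 0) (𝓝 0) := by
    have : Tendsto (fun m : ℂ => -m) (𝓝 0) (𝓝 (-0)) := continuous_neg.tendsto 0
    rwa [neg_zero] at this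
  have h3 := (h.tendsto.add (h.tendsto.comp h2)).const_smul (1 / 2 : ℂ)
  have h5 : (1 / 2 : ℂ) • (f 0 + f 0) = f 0 := by module
  rw [h5] at h3
  exact h3.mono_left nhdsWithin_le_nhds

lemma eventually_neg {P : ℂ → Prop} (h : ∀ᶠ m in 𝓝[≠] (0:ℂ), P m) :
    ∀ᶠ m in 𝓝[≠] (0:ℂ), P (-m) := by
  have h2 : Tendsto (fun m : ℂ => -m) (𝓝[≠] 0) (𝓝[≠] 0) := by
    refine tendsto_nhdsWithin_iff.2 ⟨?_, ?_⟩
    · have : Tendsto (fun m : ℂ => -m) (𝓝 0) (𝓝 (-0)) := continuous_neg.tendsto 0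
      rw [neg_zero] at this
      exact this.mono_left nhdsWithin_le_nhds
    · filter_upwards [self_mem_nhdsWithin] with m hm
      simpa using hm
  exact h2.eventually h

lemma exists_sqrt : ∃ sq : ℂ → ℂ, (∀ l, sq l ^ 2 = l) ∧
    Tendsto sq (𝓝[≠] 0) (𝓝[≠] 0) := by
  have h : ∀ l : ℂ, ∃ z : ℂ, z ^ 2 = l := fun l => IsAlgClosed.exists_pow_nat_eq l (by norm_num)
  choose sq hsq using h
  refine ⟨sq, hsq, tendsto_nhdsWithin_iff.2 ⟨?_, ?_⟩⟩
  · rw [tendsto_zero_iff_norm_tendsto_zero]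
    have h1 : ∀ l, ‖sq l‖ = Real.sqrt ‖l‖ := by
      intro l
      rw [← hsq l, norm_pow, Real.sqrt_sq (norm_nonneg _)]
      rw [hsq l]
    have h2 : Tendsto (fun l : ℂ => Real.sqrt ‖l‖) (𝓝 0) (𝓝 (Real.sqrt ‖(0:ℂ)‖)) :=
      (Real.continuous_sqrt.comp continuous_norm).tendsto 0
    rw [norm_zero, Real.sqrt_zero] at h2
    refine (h2.mono_left nhdsWithin_le_nhds).congr (fun l => (h1 l).symm)
  · filter_upwards [self_mem_nhdsWithin] with l hl
    have hl' : l ≠ 0 := hl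
    show sq l ≠ 0
    intro h0
    apply hl'
    rw [← hsq l, h0]
    norm_num

section Main

variable {T : ℂ → Matrix (Fin 4) (Fin 4) ℂ} {A : ℂ → Matrix (Fin 2) (Fin 2) ℂ} {k0 k1 : ℂ}

/-- decomposition of the action of `T (m ^ 2)` -/
lemma rel_decomp
    (hrel : ∀ m a, T (m ^ 2) *ᵥ Psi k0 k1 (a, m • a) = Psi k0 k1 (A m *ᵥ a, m • (A m *ᵥ a)))
    (m : ℂ) (x y : Fin 2 → ℂ) :
    T (m ^ 2) *ᵥ Psi k0 k1 (x + y, m • x - m • y)
      = Psi k0 k1 (A m *ᵥ x + A (-m) *ᵥ y, m • (A m *ᵥ x) - m • (A (-m) *ᵥ y)) := by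
  have h1 := hrel m x
  have h2 := hrel (-m) y
  have e0 : (-m) ^ 2 = m ^ 2 := by ring
  rw [e0] at h2
  have e1 : Psi k0 k1 (x + y, m • x - m • y) = Psi k0 k1 (x, m • x) + Psi k0 k1 (y, (-m) • y) := by
    rw [← map_add]
    congr 1
    refine Prod.ext rfl ?_
    show m • x - m • y = m • x + (-m) • y
    module
  rw [e1, Matrix.mulVec_add, h1, h2, ← map_add]
  congr 1
  refine Prod.ext rfl ?_
  show m • (A m *ᵥ x) + (-m) • (A (-m) *ᵥ y) = m • (A m *ᵥ x) - m • (A (-m) *ᵥ y)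
  module

lemma split_pair (m : ℂ) (hm : m ≠ 0) (x y : Fin 2 → ℂ) :
    ∃ a b : Fin 2 → ℂ, x = a + b ∧ y = m • a - m • b := by
  refine ⟨(1 / 2 : ℂ) • (x + m⁻¹ • y), (1 / 2 : ℂ) • (x - m⁻¹ • y), by module, ?_⟩
  have : m • (1 / 2 : ℂ) • (x + m⁻¹ • y) - m • (1 / 2 : ℂ) • (x - m⁻¹ • y) = (m * m⁻¹) • y := by
    module
  rw [this, mul_inv_cancel₀ hm, one_smul]

/-- eigenvectors of `T (m ^ 2)` for a multiplier of `A m` that is not one of `A (-m)` -/
lemma eig_sheet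
    (hdet : ∀ m, (A m).det = 1)
    (hrel : ∀ m a, T (m ^ 2) *ᵥ Psi k0 k1 (a, m • a) = Psi k0 k1 (A m *ᵥ a, m • (A m *ᵥ a)))
    {m r : ℂ} (hm : m ≠ 0) (hr : r ^ 2 - (A m).trace * r + 1 = 0) (hr1 : r ^ 2 ≠ 1)
    (hne : (A m).trace ≠ (A (-m)).trace) {e : Fin 2 → ℂ} (he : A m *ᵥ e - r⁻¹ • e ≠ 0) :
    eigSpace (T (m ^ 2)) r
      = Submodule.span ℂ {Psi k0 k1 (A m *ᵥ e - r⁻¹ • e, m • (A m *ᵥ e - r⁻¹ • e))} := by
  have hr0 : r ≠ 0 := by
    rintro rfl
    simp at hr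
  apply le_antisymm
  · intro v hv
    rw [mem_eigSpace] at hv
    obtain ⟨⟨x, y⟩, rfl⟩ := (Psi k0 k1).surjective v
    obtain ⟨a, b, hx, hy⟩ := split_pair m hm x y
    rw [hx, hy, rel_decomp hrel, ← map_smul] at hv
    have h1 := (Psi k0 k1).injective hv
    rw [Prod.smul_mk, Prod.mk.injEq] at h1
    obtain ⟨h1, h2⟩ := h1
    have h3 : A m *ᵥ a - A (-m) *ᵥ b = r • (a - b) := by
      have : m • (A m *ᵥ a - A (-m) *ᵥ b) = m • (r • (a - b)) := by
        rw [smul_sub, h2]; module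
      exact smul_right_injective _ hm this
    have ha : A m *ᵥ a = r • a := by
      have : (2:ℂ) • (A m *ᵥ a) = (2:ℂ) • (r • a) := by
        calc (2:ℂ) • (A m *ᵥ a) = (A m *ᵥ a + A (-m) *ᵥ b) + (A m *ᵥ a - A (-m) *ᵥ b) := by module
          _ = r • (a + b) + r • (a - b) := by rw [h1, h3]
          _ = _ := by module
      exact smul_right_injective _ two_ne_zero this
    have hb : A (-m) *ᵥ b = r • b := by
      have : (2:ℂ) • (A (-m) *ᵥ b) = (2:ℂ) • (r • b) := by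
        calc (2:ℂ) • (A (-m) *ᵥ b) = (A m *ᵥ a + A (-m) *ᵥ b) - (A m *ᵥ a - A (-m) *ᵥ b) := by module
          _ = r • (a + b) - r • (a - b) := by rw [h1, h3]
          _ = _ := by module
      exact smul_right_injective _ two_ne_zero this
    have hb0 : b = 0 := by
      by_contra hb0
      have h5 := eig_root (hdet (-m)) hb hb0
      apply hne
      have : ((A m).trace - (A (-m)).trace) * r = 0 := by linear_combination h5 - hr
      exact sub_eq_zero.1 ((mul_eq_zero.1 this).resolve_right hr0)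
    obtain ⟨c, hc⟩ := eig_line (hdet m) hr hr0 hr1 he ha
    rw [Submodule.mem_span_singleton]
    refine ⟨c, ?_⟩
    rw [← map_smul]
    congr 1
    rw [hx, hy, hb0, hc]
    refine Prod.ext ?_ ?_
    · simp
    · show c • m • _ = _
      rw [smul_zero, sub_zero, smul_comm]
  · rw [Submodule.span_singleton_le_iff_mem, mem_eigSpace, hrel, eig_vec (hdet m) hr hr0,
      ← map_smul]
    congr 1
    refine Prod.ext rfl ?_
    show m • r • _ = r • m • _
    rw [smul_comm]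

end Main

end Pool.Agent.W795.Floq
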