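import Pool.Agent.W795.FloqOde
import Pool.Agent.W795.FloqMain

/-! The Floquet matrix of `(D^2 + Q)^2`. -/

set_option autoImplicit false

namespace Pool.Agent.W795.Floq

open Filter Topology Matrix

/-- Existence, uniqueness and entireness of the Floquet matrix of a fourth order operator. -/
theorem floquet4 {p : ℕ → ℝ → ℂ} (hp : ∀ k, Continuous (p k)) {b : ℝ}
    (hper : ∀ k x, p k (x + b) = p k x) :
    ∃ T : ℂ → Matrix (Fin 4) (Fin 4) ℂ, IsFloquetMatrix 4 b p T ∧
      (∀ T', IsFloquetMatrix 4 b p T' → T' = T) ∧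
      (∀ i j, Differentiable ℂ (fun l => T l i j)) ∧
      ∀ l Z, IsSys (comp4 p) spec4 l Z → T l *ᵥ Z 0 = Z b := by
  obtain ⟨Y, h1, h2, h3, h4⟩ := exists_monodromy (comp4_cont hp) spec4
  have hC : ∀ x, comp4 p (x + b) = comp4 p x := by
    intro x
    unfold comp4
    rw [hper, hper, hper]
  refine ⟨fun l => Matrix.of fun i j => Y j l b i, ?_, ?_, ?_, fun l Z hZ => h4 l Z hZ b⟩
  · refine ⟨fun l j x => Y j l x 0, ?_, ?_⟩
    · intro l j
      obtain ⟨e1, e2⟩ := sol_of_sys hp (h2 j l)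
      refine ⟨e1, fun k => ?_⟩
      rw [e2 k 0, h1]
      simp [Pi.single_apply]
    · intro l j x
      have h5 : (fun x => Y j l (x + b)) = fun x => ∑ k, Y j l b k • Y k l x := by
        apply sys_unique (comp4_cont hp) ((h2 j l).shift hC)
          (IsSys.sum _ (fun k => (h2 k l).smul (Y j l b k)))
        ext i
        simp [h1, Finset.sum_apply, Pi.single_apply]
      have h6 := congrFun (congrFun h5 x) 0
      simp only [Finset.sum_apply, Pi.smul_apply, smul_eq_mul] at h6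
      exact h6
  · rintro T' ⟨u, hu, hT'⟩
    funext l
    ext i j
    have hY : ∀ j, (fun x => fun i : Fin 4 => iteratedDeriv i (u l j) x) = Y j l := by
      intro j
      apply sys_unique (comp4_cont hp) (sys_of_sol (hu l j).1) (h2 j l)
      rw [h1]
      ext k
      rw [(hu l j).2 k]
      simp [Pi.single_apply]
    have hY0 : ∀ j x, u l j x = Y j l x 0 := by
      intro j x
      have := congrFun (congrFun (hY j) x) 0
      rw [← this]
      show _ = iteratedDeriv 0 (u l j) x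
      rw [iteratedDeriv_zero]
    -- the difference is a solution with vanishing first component
    set Z : ℝ → (Fin 4 → ℂ) := fun x => Y j l (x + b) + ∑ k, (-T' l k j) • Y k l x with hZ
    have hZs : IsSys (comp4 p) spec4 l Z :=
      ((h2 j l).shift hC).add (IsSys.sum _ (fun k => (h2 k l).smul (-T' l k j)))
    have hZ0 : (fun x => Z x 0) = fun _ => 0 := by
      funext x
      have e := hT' l j x
      rw [hY0] at e
      simp only [hY0] at e
      rw [hZ]
      simp only [Pi.add_apply, Finset.sum_apply, Pi.smul_apply, smul_eq_mul]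
      rw [e, ← Finset.sum_add_distrib]
      apply Finset.sum_eq_zero
      intro k _
      ring
    have hZi := (sol_of_sys hp hZs).2 i 0
    rw [hZ0] at hZi
    have e5 : iteratedDeriv (i:ℕ) (fun _ : ℝ => (0:ℂ)) 0 = 0 := by
      rw [iteratedDeriv_const]
      split_ifs <;> rfl
    rw [e5] at hZi
    rw [hZ] at hZi
    simp only [Pi.add_apply, Finset.sum_apply, Pi.smul_apply, smul_eq_mul, h1,
      Pi.single_apply, zero_add] at hZi
    simp at hZi
    show T' l i j = Y j l b i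
    linear_combination hZi
  · intro i j
    exact (differentiable_pi.1 (h3 j b)) i

/-- the companion system of the second order equation `v'' + Q v = m v` -/
def comp2 (Q : ℝ → ℂ) (x : ℝ) : Matrix (Fin 2) (Fin 2) ℂ := !![0, 1; -Q x, 0]

/-- the spectral part -/
def spec2 : Matrix (Fin 2) (Fin 2) ℂ := !![0, 0; 1, 0]

lemma comp2_cont {Q : ℝ → ℂ} (hQ : Continuous Q) : Continuous (comp2 Q) := by
  refine continuous_matrix fun i j => ?_
  fin_cases i <;> fin_cases j <;> simp [comp2] <;> first | exact continuous_const | exact hQ.neg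

lemma sys2_iff {Q : ℝ → ℂ} {m : ℂ} {Y : ℝ → (Fin 2 → ℂ)} :
    IsSys (comp2 Q) spec2 m Y ↔ ∀ x,
      HasDerivAt (fun x => Y x 0) (Y x 1) x ∧
      HasDerivAt (fun x => Y x 1) ((m - Q x) * Y x 0) x := by
  constructor
  · intro h x
    have h1 := hasDerivAt_pi.1 (h x)
    refine ⟨?_, ?_⟩
    · refine (h1 0).congr_deriv ?_
      simp [comp2, spec2, Matrix.mulVec, dotProduct, Fin.sum_univ_two]
    · refine (h1 1).congr_deriv ?_
      simp [comp2, spec2, Matrix.mulVec, dotProduct, Fin.sum_univ_two]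
      ring
  · intro h x
    obtain ⟨h0, h1⟩ := h x
    rw [hasDerivAt_pi]
    intro i
    fin_cases i
    · refine h0.congr_deriv ?_
      simp [comp2, spec2, Matrix.mulVec, dotProduct, Fin.sum_univ_two]
    · refine h1.congr_deriv ?_
      simp [comp2, spec2, Matrix.mulVec, dotProduct, Fin.sum_univ_two]
      ring

/-- coefficients of `(D^2 + Q)^2` -/
def coef (Q Q1 Q2 : ℝ → ℂ) : ℕ → ℝ → ℂ
  | 0 => fun x => Q2 x + Q x ^ 2
  | 1 => fun x => 2 * Q1 x
  | 2 => fun x => 2 * Q x
  | _ => fun _ => 0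

lemma sys4_of_sys2 {Q Q1 Q2 : ℝ → ℂ} (hQ : ∀ x, HasDerivAt Q (Q1 x) x)
    (hQ1 : ∀ x, HasDerivAt Q1 (Q2 x) x) {m : ℂ} {Y : ℝ → (Fin 2 → ℂ)}
    (hY : IsSys (comp2 Q) spec2 m Y) :
    IsSys (comp4 (coef Q Q1 Q2)) spec4 (m ^ 2)
      (fun x => ![Y x 0, Y x 1, (m - Q x) * Y x 0, (m - Q x) * Y x 1 - Q1 x * Y x 0]) := by
  rw [sys2_iff] at hY
  rw [sys4_iff]
  intro x
  obtain ⟨h0, h1⟩ := hY x
  refine ⟨?_, ?_, ?_, ?_⟩
  · simpa using h0
  · simpa using h1
  · have := ((hQ x).const_sub m).mul h0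
    simp only [Matrix.cons_val]
    refine this.congr_deriv ?_
    ring
  · have := (((hQ x).const_sub m).mul h1).sub ((hQ1 x).mul h0)
    simp only [Matrix.cons_val]
    refine this.congr_deriv ?_
    simp only [coef]
    ring

/-- The Floquet matrix of `(D^2 + Q)^2` has a first kind pathology over `0` once the Hill
discriminant of `D^2 + Q` has a critical point at `0`, is not `2` or `-2` there and is not even. -/
theorem pathology_square {Q Q1 Q2 : ℝ → ℂ} (hQ : ∀ x, HasDerivAt Q (Q1 x) x)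
    (hQ1 : ∀ x, HasDerivAt Q1 (Q2 x) x) (hQ2 : Continuous Q2) {b : ℝ}
    (hper : ∀ x, Q (x + b) = Q x) (hper1 : ∀ x, Q1 (x + b) = Q1 x)
    (hper2 : ∀ x, Q2 (x + b) = Q2 x)
    {W : Fin 2 → ℂ → ℝ → (Fin 2 → ℂ)} (hW0 : ∀ j l, W j l 0 = Pi.single j 1)
    (hW : ∀ j l, IsSys (comp2 Q) spec2 l (W j l))
    (hWd : ∀ j x, Differentiable ℂ (fun l => W j l x))
    (hd : deriv (fun m => W 0 m b 0 + W 1 m b 1) 0 = 0)
    (h4 : (W 0 0 b 0 + W 1 0 b 1) ^ 2 ≠ 4)
    (hne : ∀ᶠ m in 𝓝[≠] (0:ℂ), W 0 m b 0 + W 1 m b 1 ≠ W 0 (-m) b 0 + W 1 (-m) b 1) :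
    ∃ T : ℂ → Matrix (Fin 4) (Fin 4) ℂ, IsFloquetMatrix 4 b (coef Q Q1 Q2) T ∧
      (∀ T', IsFloquetMatrix 4 b (coef Q Q1 Q2) T' → T' = T) ∧
      (∀ i j, Differentiable ℂ (fun l => T l i j)) ∧ HasFirstKindPathology T 0 := by
  have hQc : Continuous Q := continuous_iff_continuousAt.2 fun x => (hQ x).continuousAt
  have hQ1c : Continuous Q1 := continuous_iff_continuousAt.2 fun x => (hQ1 x).continuousAt
  have hp : ∀ k, Continuous (coef Q Q1 Q2 k) := by
    intro k
    match k with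
    | 0 => exact hQ2.add (hQc.pow 2)
    | 1 => exact continuous_const.mul hQ1c
    | 2 => exact continuous_const.mul hQc
    | (k + 3) => exact continuous_const
  have hpp : ∀ k x, coef Q Q1 Q2 k (x + b) = coef Q Q1 Q2 k x := by
    intro k x
    match k with
    | 0 => simp [coef, hper, hper2]
    | 1 => simp [coef, hper1]
    | 2 => simp [coef, hper]
    | (k + 3) => rfl
  obtain ⟨T, hT1, hT2, hT3, hT4⟩ := floquet4 hp hpp
  refine ⟨T, hT1, hT2, hT3, ?_⟩
  have hWc := comp2_cont hQc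
  set A : ℂ → Matrix (Fin 2) (Fin 2) ℂ := fun m => Matrix.of fun i j => W j m b i with hA
  have htr : ∀ m, (A m).trace = W 0 m b 0 + W 1 m b 1 := by
    intro m
    rw [trace_fin_two]
    rfl
  -- every solution
  have hsol : ∀ (m : ℂ) (a : Fin 2 → ℂ), ∃ V, IsSys (comp2 Q) spec2 m V ∧ V 0 = a ∧
      V b = A m *ᵥ a := by
    intro m a
    refine ⟨fun x => ∑ j, a j • W j m x, IsSys.sum _ (fun j => (hW j m).smul (a j)), ?_, ?_⟩
    · ext i
      simp [hW0, Finset.sum_apply, Pi.single_apply]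
    · ext i
      simp [hA, Matrix.mulVec, dotProduct, Finset.sum_apply, mul_comm]
  refine pathology (A := A) (k0 := Q 0) (k1 := Q1 0) (fun i j => (hT3 i j).continuous.continuousAt)
    ?_ ?_ ?_ ?_ ?_ ?_
  · intro i j
    exact ((differentiable_pi.1 (hWd j b)) i).analyticAt 0
  · intro m
    -- Wronskian
    have hd : ∀ x, HasDerivAt (fun x => W 0 m x 0 * W 1 m x 1 - W 0 m x 1 * W 1 m x 0) 0 x := by
      intro x
      obtain ⟨a0, a1⟩ := (sys2_iff.1 (hW 0 m)) x
      obtain ⟨b0, b1⟩ := (sys2_iff.1 (hW 1 m)) x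
      refine ((a0.mul b1).sub (a1.mul b0)).congr_deriv ?_
      ring
    have hc := is_const_of_deriv_eq_zero (fun x => (hd x).differentiableAt)
      (fun x => (hd x).deriv) b 0
    rw [det_fin_two]
    simp only [hW0] at hc
    simp at hc
    show W 0 m b 0 * W 1 m b 1 - W 1 m b 0 * W 0 m b 1 = 1
    linear_combination hc
  · intro m a
    obtain ⟨V, hV, hV0, hVb⟩ := hsol m a
    have h5 := hT4 (m ^ 2) _ (sys4_of_sys2 hQ hQ1 hV)
    have hQb : Q b = Q 0 := by have := hper 0; rwa [zero_add] at this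
    have hQ1b : Q1 b = Q1 0 := by have := hper1 0; rwa [zero_add] at this
    have e1 : ![V 0 0, V 0 1, (m - Q 0) * V 0 0, (m - Q 0) * V 0 1 - Q1 0 * V 0 0]
        = Psi (Q 0) (Q1 0) (a, m • a) := by
      rw [hV0]
      ext i
      fin_cases i <;> simp [Psi] <;> ring
    have e2 : ![V b 0, V b 1, (m - Q b) * V b 0, (m - Q b) * V b 1 - Q1 b * V b 0]
        = Psi (Q 0) (Q1 0) (A m *ᵥ a, m • (A m *ᵥ a)) := by
      rw [hVb, hQb, hQ1b]
      ext i
      fin_cases i <;> simp [Psi] <;> ring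
    rw [← e1, ← e2]
    exact h5
  · have : (fun m => (A m).trace) = fun m => W 0 m b 0 + W 1 m b 1 := funext htr
    rw [this]; exact hd
  · rw [htr]; exact h4
  · filter_upwards [hne] with m hm
    rw [htr, htr]; exact hm

end Pool.Agent.W795.Floq
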