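import Mathlib

/-! Linear ordinary differential equations: global existence, Gronwall bounds, and analytic
dependence on a spectral parameter. -/

set_option autoImplicit false

namespace Pool.Agent.W795

open Set Filter Topology MeasureTheory intervalIntegral
open scoped Interval

section Exist

variable {E : Type*} [NormedAddCommGroup E] [NormedSpace ℝ E]

/-- Picard iterates (terms of the Neumann series). -/
noncomputable def itn (B : ℝ → E →L[ℝ] E) (y0 : E) : ℕ → ℝ → E
  | 0 => fun _ => y0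
  | k + 1 => fun x => ∫ s in (0:ℝ)..x, B s (itn B y0 k s)

variable {B : ℝ → E →L[ℝ] E} {y0 : E}

lemma itn_cont (hB : Continuous B) (k : ℕ) : Continuous (itn B y0 k) := by
  induction k with
  | zero => exact continuous_const
  | succ k ih =>
    have h : Continuous fun s => B s (itn B y0 k s) := hB.clm_apply ih
    exact continuous_primitive (fun a b => h.intervalIntegrable a b) 0

lemma itn_deriv [CompleteSpace E] (hB : Continuous B) (k : ℕ) (x : ℝ) :
    HasDerivAt (itn B y0 (k + 1)) (B x (itn B y0 k x)) x := by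
  have h : Continuous fun s => B s (itn B y0 k s) := hB.clm_apply (itn_cont hB k)
  exact integral_hasDerivAt_right (h.intervalIntegrable _ _)
    (h.stronglyMeasurableAtFilter _ _) h.continuousAt

lemma itn_bound (hB : Continuous B) {R K : ℝ} (hK : ∀ s, |s| ≤ R → ‖B s‖ ≤ K) (hK0 : 0 ≤ K)
    (k : ℕ) : ∀ x, |x| ≤ R → ‖itn B y0 k x‖ ≤ ‖y0‖ * K ^ k * |x| ^ k / k.factorial := by
  induction k with
  | zero => intro x _; simp [itn]
  | succ k ih =>
    intro x hx
    have h : Continuous fun s => B s (itn B y0 k s) := hB.clm_apply (itn_cont hB k)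
    have h1 : ‖∫ s in (0:ℝ)..x, B s (itn B y0 k s)‖
        ≤ ∫ s in Ι (0:ℝ) x, ‖B s (itn B y0 k s)‖ := norm_integral_le_integral_norm_uIoc
    have h2 : ∫ s in Ι (0:ℝ) x, ‖B s (itn B y0 k s)‖
        ≤ ∫ s in Ι (0:ℝ) x, (K * (‖y0‖ * K ^ k / k.factorial)) * |s - 0| ^ k := by
      apply setIntegral_mono_on
      · exact (h.norm.intervalIntegrable 0 x).def'
      · have : Continuous fun s : ℝ => (K * (‖y0‖ * K ^ k / k.factorial)) * |s - 0| ^ k := by
          fun_prop
        exact (this.intervalIntegrable 0 x).def'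
      · exact measurableSet_uIoc
      · intro s hs
        have hs' : |s| ≤ |x| := by
          rcases le_total 0 x with h0 | h0
          · rw [uIoc_of_le h0] at hs
            rw [abs_of_pos hs.1, abs_of_nonneg h0]; exact hs.2
          · rw [uIoc_of_ge h0] at hs
            rw [abs_of_nonpos hs.2, abs_of_nonpos h0]; linarith [hs.1]
        have e1 := hK s (hs'.trans hx)
        have e2 := ih s (hs'.trans hx)
        calc ‖B s (itn B y0 k s)‖ ≤ ‖B s‖ * ‖itn B y0 k s‖ := (B s).le_opNorm _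
          _ ≤ K * (‖y0‖ * K ^ k * |s| ^ k / k.factorial) := by
              apply mul_le_mul e1 e2 (norm_nonneg _) hK0
          _ = (K * (‖y0‖ * K ^ k / k.factorial)) * |s - 0| ^ k := by
              rw [sub_zero]; ring
    have h3 : ∫ s in Ι (0:ℝ) x, (K * (‖y0‖ * K ^ k / k.factorial)) * |s - 0| ^ k
        = ‖y0‖ * K ^ (k + 1) * |x| ^ (k + 1) / (k + 1).factorial := by
      rw [MeasureTheory.integral_const_mul, integral_pow_abs_sub_uIoc]
      rw [Nat.factorial_succ]
      push_cast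
      rw [sub_zero]
      field_simp
      ring
    show ‖∫ s in (0:ℝ)..x, B s (itn B y0 k s)‖ ≤ _
    rw [← h3]
    exact h1.trans h2

/-- Global existence for linear ODEs. -/
theorem exists_linear [CompleteSpace E] (hB : Continuous B) (y0 : E) :
    ∃ Y : ℝ → E, Y 0 = y0 ∧ ∀ x, HasDerivAt Y (B x (Y x)) x := by
  refine ⟨fun x => ∑' k, itn B y0 k x, ?_, ?_⟩
  · show ∑' k, itn B y0 k 0 = y0
    rw [tsum_eq_single 0]
    · rfl
    · intro k hk
      obtain ⟨j, rfl⟩ := Nat.exists_eq_succ_of_ne_zero hk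
      simp [itn]
  · intro x
    set R : ℝ := |x| + 1 with hR
    have hR0 : 0 < R := by positivity
    obtain ⟨K, hK⟩ : ∃ K, ∀ s ∈ Icc (-R) R, ‖B s‖ ≤ K := by
      have := (isCompact_Icc (a := -R) (b := R)).exists_bound_of_continuousOn hB.continuousOn
      exact this
    have hK0 : 0 ≤ K := (norm_nonneg _).trans (hK 0 ⟨by linarith, by linarith⟩)
    have hK' : ∀ s, |s| ≤ R → ‖B s‖ ≤ K := fun s hs => hK s (abs_le.1 hs)
    have hb := fun k => itn_bound (y0 := y0) hB hK' hK0 k
    have hsum1 : Summable fun k : ℕ => ‖y0‖ * ((K * R) ^ k / k.factorial) :=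
      (Real.summable_pow_div_factorial (K * R)).mul_left _
    have hle : ∀ k y, |y| ≤ R → ‖itn B y0 k y‖ ≤ ‖y0‖ * ((K * R) ^ k / k.factorial) := by
      intro k y hy
      refine (hb k y hy).trans ?_
      rw [mul_pow]
      have : |y| ^ k ≤ R ^ k := pow_le_pow_left₀ (abs_nonneg _) hy k
      have h1 : ‖y0‖ * K ^ k * |y| ^ k / k.factorial ≤ ‖y0‖ * K ^ k * R ^ k / k.factorial := by
        gcongr
      refine h1.trans (le_of_eq ?_)
      ring
    have hs : ∀ y, |y| ≤ R → Summable fun k => itn B y0 k y := fun y hy =>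
      Summable.of_norm_bounded hsum1 (fun k => hle k y hy)
    have hkey : HasDerivAt (fun z => ∑' k, itn B y0 (k + 1) z)
        (∑' k, B x (itn B y0 k x)) x := by
      have hu : Summable fun k : ℕ => K * (‖y0‖ * ((K * R) ^ k / k.factorial)) :=
        hsum1.mul_left K
      refine hasDerivAt_tsum_of_isPreconnected (t := Metric.ball (0:ℝ) R) (y₀ := 0) hu
        Metric.isOpen_ball (convex_ball (0:ℝ) R).isPreconnected
        (fun k y _ => itn_deriv hB k y) ?_ (Metric.mem_ball_self hR0) ?_ ?_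
      · intro k y hy
        have hy' : |y| ≤ R := by
          rw [Metric.mem_ball, dist_zero_right, Real.norm_eq_abs] at hy
          exact hy.le
        calc ‖B y (itn B y0 k y)‖ ≤ ‖B y‖ * ‖itn B y0 k y‖ := (B y).le_opNorm _
          _ ≤ _ := mul_le_mul (hK' y hy') (hle k y hy') (norm_nonneg _) hK0
      · exact (summable_nat_add_iff 1).2 (hs 0 (by simp [hR0.le]))
      · rw [Metric.mem_ball, dist_zero_right, Real.norm_eq_abs, hR]; linarith
    have hsx := hs x (by rw [hR]; linarith)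
    have hB' : ∑' k, B x (itn B y0 k x) = B x (∑' k, itn B y0 k x) :=
      ((B x).map_tsum hsx).symm
    rw [hB'] at hkey
    have heq : (fun x => ∑' k, itn B y0 k x) =ᶠ[𝓝 x]
        fun z => y0 + ∑' k, itn B y0 (k + 1) z := by
      have : Metric.ball (0:ℝ) R ∈ 𝓝 x := Metric.isOpen_ball.mem_nhds (by
        rw [Metric.mem_ball, dist_zero_right, Real.norm_eq_abs, hR]; linarith)
      filter_upwards [this] with z hz
      have hz' : |z| ≤ R := by
        rw [Metric.mem_ball, dist_zero_right, Real.norm_eq_abs] at hz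
        exact hz.le
      have := (hs z hz').tsum_eq_zero_add
      rw [this]
      rfl
    exact (hkey.const_add y0).congr_of_eventuallyEq heq

end Exist

section Gron

variable {E : Type*} [NormedAddCommGroup E] [NormedSpace ℝ E]

/-- Two-sided Gronwall bound. -/
theorem gronwall_two {Y Y' : ℝ → E} {δ K ε : ℝ} (hY : ∀ x, HasDerivAt Y (Y' x) x)
    (h0 : ‖Y 0‖ ≤ δ) {R : ℝ} (hb : ∀ x, |x| ≤ R → ‖Y' x‖ ≤ K * ‖Y x‖ + ε) :
    ∀ x, |x| ≤ R → ‖Y x‖ ≤ gronwallBound δ K ε |x| := by
  intro x hx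
  rcases le_total 0 x with h | h
  · have := norm_le_gronwallBound_of_norm_deriv_right_le (f := Y) (f' := Y') (δ := δ) (K := K)
      (ε := ε) (a := 0) (b := x) (fun s _ => (hY s).continuousAt.continuousWithinAt)
      (fun s _ => (hY s).hasDerivWithinAt) h0 (fun s hs => hb s (by
        rw [abs_of_nonneg hs.1]; rw [abs_of_nonneg h] at hx; linarith [hs.2])) x ⟨h, le_rfl⟩
    rw [sub_zero] at this
    rwa [abs_of_nonneg h]
  · have hY2 : ∀ s, HasDerivAt (fun s => Y (-s)) (-Y' (-s)) s := by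
      intro s
      have := (hY (-s)).scomp s (hasDerivAt_neg s)
      simpa [Function.comp_def] using this
    have := norm_le_gronwallBound_of_norm_deriv_right_le (f := fun s => Y (-s))
      (f' := fun s => -Y' (-s)) (δ := δ) (K := K)
      (ε := ε) (a := 0) (b := -x) (fun s _ => (hY2 s).continuousAt.continuousWithinAt)
      (fun s _ => (hY2 s).hasDerivWithinAt) (by simpa using h0) (fun s hs => by
        rw [norm_neg]
        exact hb (-s) (by
          rw [abs_neg, abs_of_nonneg hs.1]; rw [abs_of_nonpos h] at hx; linarith [hs.2]))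
        (-x) ⟨by linarith, le_rfl⟩
    rw [sub_zero, neg_neg] at this
    rwa [abs_of_nonpos h]

/-- Uniqueness for linear equations. -/
theorem linear_unique {B : ℝ → E →L[ℝ] E} (hB : Continuous B) {Y Z : ℝ → E}
    (hY : ∀ x, HasDerivAt Y (B x (Y x)) x) (hZ : ∀ x, HasDerivAt Z (B x (Z x)) x)
    (h0 : Y 0 = Z 0) : Y = Z := by
  funext x
  obtain ⟨K, hK⟩ : ∃ K, ∀ s ∈ Icc (-|x|) |x|, ‖B s‖ ≤ K :=
    (isCompact_Icc (a := -|x|) (b := |x|)).exists_bound_of_continuousOn hB.continuousOn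
  have hd : ∀ s, HasDerivAt (fun s => Y s - Z s) (B s (Y s - Z s)) s := by
    intro s
    rw [map_sub]
    exact (hY s).sub (hZ s)
  have := gronwall_two (δ := 0) (K := K) (ε := 0) (R := |x|) hd (by simp [h0])
    (fun s hs => by
      rw [add_zero]
      exact ((B s).le_opNorm _).trans
        (mul_le_mul_of_nonneg_right (hK s (abs_le.1 hs)) (norm_nonneg _))) x le_rfl
  rw [gronwallBound_ε0_δ0] at this
  exact sub_eq_zero.1 (norm_le_zero_iff.1 this)

end Gron

section Param

variable {E : Type*} [NormedAddCommGroup E] [NormedSpace ℂ E] [CompleteSpace E]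

/-- Complex differentiability with respect to the spectral parameter. -/
theorem param_diff {B0 : ℝ → E →L[ℂ] E} (hB0 : Continuous B0) {B1 : E →L[ℂ] E} {y0 : E}
    {Y : ℂ → ℝ → E} (h0 : ∀ l, Y l 0 = y0)
    (hY : ∀ l x, HasDerivAt (Y l) (B0 x (Y l x) + l • B1 (Y l x)) x) (x0 : ℝ) :
    Differentiable ℂ (fun l => Y l x0) := by
  intro l
  -- the variational equation
  set A : ℝ → E →L[ℝ] E := fun x => (B0 x + l • B1).restrictScalars ℝ with hA
  have hAc : Continuous A := by
    have h1 : Continuous fun x => B0 x + l • B1 := by fun_prop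
    exact (ContinuousLinearMap.restrictScalarsL ℂ E E ℝ ℝ).continuous.comp h1
  set B1r : E →L[ℝ] E := B1.restrictScalars ℝ with hB1r
  set S : ℝ → (E × E) →L[ℝ] (E × E) := fun x =>
    ((A x).comp (ContinuousLinearMap.fst ℝ E E)).prod
      ((A x).comp (ContinuousLinearMap.snd ℝ E E) + B1r.comp (ContinuousLinearMap.fst ℝ E E))
    with hS
  have hSc : Continuous S := by
    have e1 : Continuous fun x => (A x).comp (ContinuousLinearMap.fst ℝ E E) := by fun_prop
    have e2 : Continuous fun x => (A x).comp (ContinuousLinearMap.snd ℝ E E)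
        + B1r.comp (ContinuousLinearMap.fst ℝ E E) := by fun_prop
    exact (ContinuousLinearMap.prodL (𝕜 := ℝ) (E := E × E) (F := E) (G := E) (S := ℝ)).continuous.comp
      (e1.prodMk e2)
  obtain ⟨W, hW0, hW⟩ := exists_linear hSc (y0, (0 : E))
  have hW1 : ∀ x, HasDerivAt (fun x => (W x).1) (A x (W x).1) x := fun x => by
    have := (hW x).fst
    exact this
  have hW2 : ∀ x, HasDerivAt (fun x => (W x).2) (A x (W x).2 + B1 (W x).1) x := fun x => by
    have := (hW x).snd
    exact this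
  have hYl : ∀ x, HasDerivAt (Y l) (A x (Y l x)) x := fun x => hY l x
  have hWY : (fun x => (W x).1) = Y l := linear_unique hAc hW1 hYl (by
    show (W 0).1 = Y l 0
    rw [hW0, h0])
  set Z : ℝ → E := fun x => (W x).2 with hZdef
  have hZ : ∀ x, HasDerivAt Z (B0 x (Z x) + l • B1 (Z x) + B1 (Y l x)) x := by
    intro x
    have := hW2 x
    have e : (W x).1 = Y l x := congrFun hWY x
    rw [e] at this
    exact this
  have hZ0 : Z 0 = 0 := by show (W 0).2 = 0; rw [hW0]
  set R : ℝ := |x0| with hR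
  have hYc : Continuous (Y l) := continuous_iff_continuousAt.2 fun x => (hY l x).continuousAt
  obtain ⟨CY, hCY⟩ : ∃ C, ∀ s ∈ Icc (-R) R, ‖Y l s‖ ≤ C :=
    (isCompact_Icc (a := -R) (b := R)).exists_bound_of_continuousOn hYc.continuousOn
  obtain ⟨KB, hKB⟩ : ∃ C, ∀ s ∈ Icc (-R) R, ‖B0 s‖ ≤ C :=
    (isCompact_Icc (a := -R) (b := R)).exists_bound_of_continuousOn hB0.continuousOn
  have hR0 : 0 ≤ R := abs_nonneg _
  have h0mem : (0:ℝ) ∈ Icc (-R) R := ⟨by linarith, hR0⟩
  have hCY0 : 0 ≤ CY := (norm_nonneg _).trans (hCY 0 h0mem)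
  have hKB0 : 0 ≤ KB := (norm_nonneg _).trans (hKB 0 h0mem)
  set K : ℝ := KB + (‖l‖ + 1) * ‖B1‖ + 1 with hK
  have hKpos : 0 < K := by positivity
  have hbd : ∀ s, |s| ≤ R → ∀ (c : ℂ), ‖c‖ ≤ ‖l‖ + 1 → ∀ v : E,
      ‖B0 s v + c • B1 v‖ ≤ K * ‖v‖ := by
    intro s hs c hc v
    have e1 : ‖B0 s v‖ ≤ KB * ‖v‖ :=
      ((B0 s).le_opNorm v).trans (mul_le_mul_of_nonneg_right (hKB s (abs_le.1 hs)) (norm_nonneg _))
    have e2 : ‖c • B1 v‖ ≤ (‖l‖ + 1) * ‖B1‖ * ‖v‖ := by
      rw [norm_smul, mul_assoc]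
      exact mul_le_mul hc (B1.le_opNorm v) (norm_nonneg _) (by positivity)
    calc ‖B0 s v + c • B1 v‖ ≤ ‖B0 s v‖ + ‖c • B1 v‖ := norm_add_le _ _
      _ ≤ KB * ‖v‖ + (‖l‖ + 1) * ‖B1‖ * ‖v‖ := add_le_add e1 e2
      _ ≤ K * ‖v‖ := by
          rw [hK]; nlinarith [norm_nonneg v]
  have hgb : ∀ (ε s : ℝ), 0 ≤ ε → |s| ≤ R → gronwallBound 0 K ε |s| ≤ ε * (Real.exp (K * R) / K) := by
    intro ε s hε hs
    rw [gronwallBound_of_K_ne_0 hKpos.ne']
    simp only [zero_mul, zero_add]
    have : Real.exp (K * |s|) ≤ Real.exp (K * R) := Real.exp_le_exp.2 (by gcongr)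
    calc ε / K * (Real.exp (K * |s|) - 1) ≤ ε / K * Real.exp (K * R) := by
          apply mul_le_mul_of_nonneg_left _ (by positivity)
          linarith
      _ = ε * (Real.exp (K * R) / K) := by ring
  set C1 : ℝ := ‖B1‖ * CY * (Real.exp (K * R) / K) with hC1
  set C2 : ℝ := ‖B1‖ * C1 * (Real.exp (K * R) / K) with hC2
  have hC10 : 0 ≤ C1 := by positivity
  have hD : ∀ h : ℂ, ‖h‖ ≤ 1 → ∀ s, |s| ≤ R → ‖Y (l + h) s - Y l s‖ ≤ ‖h‖ * C1 := by
    intro h hh s hs
    have hlh : ‖l + h‖ ≤ ‖l‖ + 1 := (norm_add_le _ _).trans (by linarith)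
    have hd : ∀ x, HasDerivAt (fun x => Y (l + h) x - Y l x)
        ((B0 x (Y (l + h) x - Y l x) + (l + h) • B1 (Y (l + h) x - Y l x))
          + h • B1 (Y l x)) x := by
      intro x
      refine ((hY (l + h) x).sub (hY l x)).congr_deriv ?_
      rw [map_sub, map_sub]
      module
    have hb := gronwall_two (δ := 0) (K := K) (ε := ‖h‖ * (‖B1‖ * CY)) (R := R) hd
      (by simp [h0]) (fun x hx => by
        refine (norm_add_le _ _).trans (add_le_add (hbd x hx _ hlh _) ?_)
        rw [norm_smul]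
        apply mul_le_mul_of_nonneg_left _ (norm_nonneg _)
        exact (B1.le_opNorm _).trans (mul_le_mul_of_nonneg_left (hCY x (abs_le.1 hx))
          (norm_nonneg _))) s hs
    refine hb.trans ((hgb _ s (by positivity) hs).trans (le_of_eq ?_))
    rw [hC1]; ring
  have hG : ∀ h : ℂ, ‖h‖ ≤ 1 → ‖Y (l + h) x0 - Y l x0 - h • Z x0‖ ≤ ‖h‖ ^ 2 * C2 := by
    intro h hh
    have hd : ∀ x, HasDerivAt (fun x => Y (l + h) x - Y l x - h • Z x)
        ((B0 x (Y (l + h) x - Y l x - h • Z x) + l • B1 (Y (l + h) x - Y l x - h • Z x))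
          + h • B1 (Y (l + h) x - Y l x)) x := by
      intro x
      refine (((hY (l + h) x).sub (hY l x)).sub ((hZ x).const_smul h)).congr_deriv ?_
      simp only [map_sub, map_smul]
      module
    have hb := gronwall_two (δ := 0) (K := K) (ε := ‖h‖ ^ 2 * (‖B1‖ * C1)) (R := R) hd
      (by simp [h0, hZ0]) (fun x hx => by
        refine (norm_add_le _ _).trans (add_le_add (hbd x hx _ (by linarith) _) ?_)
        rw [norm_smul, pow_two, mul_assoc]
        apply mul_le_mul_of_nonneg_left _ (norm_nonneg _)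
        refine (B1.le_opNorm _).trans ?_
        calc ‖B1‖ * ‖Y (l + h) x - Y l x‖ ≤ ‖B1‖ * (‖h‖ * C1) :=
              mul_le_mul_of_nonneg_left (hD h hh x hx) (norm_nonneg _)
          _ = ‖h‖ * (‖B1‖ * C1) := by ring) x0 le_rfl
    refine hb.trans ((hgb _ x0 (by positivity) le_rfl).trans (le_of_eq ?_))
    rw [hC2]; ring
  have hder : HasDerivAt (fun l => Y l x0) (Z x0) l := by
    rw [hasDerivAt_iff_isLittleO_nhds_zero]
    have hO : (fun h : ℂ => Y (l + h) x0 - Y l x0 - h • Z x0) =O[𝓝 0] fun h : ℂ => h ^ 2 := by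
      refine Asymptotics.IsBigO.of_bound C2 ?_
      have : Metric.closedBall (0:ℂ) 1 ∈ 𝓝 (0:ℂ) := Metric.closedBall_mem_nhds _ one_pos
      filter_upwards [this] with h hh
      rw [norm_pow, mul_comm]
      exact hG h (by simpa using hh)
    refine hO.trans_isLittleO ?_
    have : (fun h : ℂ => h ^ 2) =o[𝓝 0] fun h : ℂ => h ^ 1 :=
      Asymptotics.isLittleO_pow_pow (by norm_num)
    simpa using this
  exact hder.differentiableAt

/-- The fundamental family, entire in the spectral parameter. -/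
theorem exists_entire {B0 : ℝ → E →L[ℂ] E} (hB0 : Continuous B0) (B1 : E →L[ℂ] E) (y0 : E) :
    ∃ Y : ℂ → ℝ → E, (∀ l, Y l 0 = y0) ∧
      (∀ l x, HasDerivAt (Y l) (B0 x (Y l x) + l • B1 (Y l x)) x) ∧
      ∀ x, Differentiable ℂ (fun l => Y l x) := by
  have h : ∀ l : ℂ, ∃ Y : ℝ → E, Y 0 = y0 ∧
      ∀ x, HasDerivAt Y (B0 x (Y x) + l • B1 (Y x)) x := by
    intro l
    have h1 : Continuous fun x => B0 x + l • B1 := by fun_prop
    have hAc : Continuous fun x => ((B0 x + l • B1).restrictScalars ℝ : E →L[ℝ] E) :=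
      (ContinuousLinearMap.restrictScalarsL ℂ E E ℝ ℝ).continuous.comp h1
    obtain ⟨Y, hY0, hY⟩ := exists_linear hAc y0
    exact ⟨Y, hY0, fun x => hY x⟩
  choose Y hY0 hY using h
  exact ⟨Y, hY0, hY, fun x => param_diff hB0 hY0 hY x⟩

end Param

end Pool.Agent.W795
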